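import Pool.Agent.H30.PI.ExsE

set_option autoImplicit false

/-! # The exponent of groups with `x ~ x ^ e` in rings with a polynomial identity (helper64) -/

namespace Pool.Agent.H64.RE

open Pool.Agent.H30.PI (exE sexE)
open Polynomial

universe u v

/-- A monic polynomial of degree `n` with `n + 1` roots. -/
theorem vand_zero {A : Type*} [CommRing A] (P : A[X]) (hP : P.Monic) (r : Fin (P.natDegree + 1) → A)
    (hr : ∀ i, P.eval (r i) = 0) : ∏ i, ∏ j ∈ Finset.Ioi i, (r j - r i) = 0 := by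
  rw [← Matrix.det_vandermonde]
  set V := Matrix.vandermonde r with hV
  let c : Fin (P.natDegree + 1) → A := fun i => P.coeff i
  have h1 : V.mulVec c = 0 := by
    funext i
    have h2 := hr i
    rw [Polynomial.eval_eq_sum_range, ← Fin.sum_univ_eq_sum_range
      (fun k => P.coeff k * r i ^ k)] at h2
    show ∑ j, V i j * c j = 0
    rw [← h2]
    refine Finset.sum_congr rfl fun j _ => ?_
    rw [hV, Matrix.vandermonde_apply, mul_comm]
  have h3 : V.det • c = 0 := by
    have h5 : (V.adjugate * V).mulVec c = 0 := by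
      rw [← Matrix.mulVec_mulVec, h1, Matrix.mulVec_zero]
    rwa [Matrix.adjugate_mul, Matrix.smul_mulVec, Matrix.one_mulVec] at h5
  have h4 := congrFun h3 (Fin.last _)
  simp only [Pi.smul_apply, Pi.zero_apply, smul_eq_mul] at h4
  have h5 : c (Fin.last _) = 1 := by
    show P.coeff _ = 1
    rw [Fin.val_last]
    exact hP
  rwa [h5, mul_one] at h4

/-- The number of pairs. -/
def KK (E : ℕ) : ℕ := ∑ i : Fin (E + 1), (Finset.Ioi i).card

/-- If all powers of `x` are roots of the same monic polynomial of degree `E`. -/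
theorem root_pow {A : Type*} [CommRing A] (P : A[X]) (hP : P.Monic) (x : A)
    (hx : ∀ j : ℕ, P.eval (x ^ j) = 0) :
    ∃ S : ℕ, x ^ S * (x ^ P.natDegree.factorial - 1) ^ KK P.natDegree = 0 := by
  have h1 := vand_zero P hP (fun i => x ^ (i : ℕ)) (fun i => hx i)
  have h2 : (∏ i : Fin (P.natDegree + 1), ∏ j ∈ Finset.Ioi i, (x ^ (j : ℕ) - x ^ (i : ℕ))) ∣
      ∏ i : Fin (P.natDegree + 1), ∏ _j ∈ Finset.Ioi i,
        (x ^ (i : ℕ) * (x ^ P.natDegree.factorial - 1)) := by
    refine Finset.prod_dvd_prod_of_dvd _ _ fun i _ => Finset.prod_dvd_prod_of_dvd _ _ fun j hj => ?_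
    have hij' : i < j := Finset.mem_Ioi.1 hj
    have hij : (i : ℕ) < (j : ℕ) := hij'
    have e1 : x ^ (j : ℕ) - x ^ (i : ℕ) = x ^ (i : ℕ) * (x ^ ((j : ℕ) - i) - 1) := by
      rw [mul_sub, ← pow_add, mul_one, Nat.add_sub_cancel' hij.le]
    rw [e1]
    refine mul_dvd_mul_left _ ?_
    have e2 : ((j : ℕ) - i) ∣ P.natDegree.factorial :=
      Nat.dvd_factorial (by omega) (by have := j.2; omega)
    obtain ⟨c, hc⟩ := e2
    rw [hc, pow_mul]
    exact sub_one_dvd_pow_sub_one _ _
  rw [h1, zero_dvd_iff] at h2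
  refine ⟨∑ i : Fin (P.natDegree + 1), ∑ _j ∈ Finset.Ioi i, (i : ℕ), ?_⟩
  rw [← h2, KK]
  simp only [Finset.prod_mul_distrib, Finset.prod_pow_eq_pow_sum, Finset.prod_const]

/-- All powers of `x` are roots of one monic polynomial of degree `E`: in a ring. -/
theorem root_pow_ring {B : Type u} [Ring B] (P : ℤ[X]) (hP : P.Monic) (x : Bˣ)
    (hx : ∀ j : ℕ, aeval ((x : B) ^ j) P = 0) :
    ((x : B) ^ P.natDegree.factorial - 1) ^ KK P.natDegree = 0 := by
  let f : ℤ[X] →ₐ[ℤ] B := aeval (x : B)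
  let I : Ideal ℤ[X] := RingHom.ker (f : ℤ[X] →+* B)
  have hI : ∀ q : ℤ[X], q ∈ I ↔ aeval (x : B) q = 0 := fun q => RingHom.mem_ker
  let A := ℤ[X] ⧸ I
  let π : ℤ[X] →+* A := Ideal.Quotient.mk I
  have hπ : ∀ q : ℤ[X], π q = 0 ↔ aeval (x : B) q = 0 := fun q => by
    rw [← hI]; exact Ideal.Quotient.eq_zero_iff_mem
  have hdeg : (P.map (Int.castRingHom A)).natDegree = P.natDegree ∨ Subsingleton A := by
    rcases subsingleton_or_nontrivial A with h | h
    · exact Or.inr h
    · exact Or.inl (hP.natDegree_map _)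
  rcases hdeg with hdeg | hsub
  · obtain ⟨S, hS⟩ := root_pow (P.map (Int.castRingHom A)) (hP.map _) (π X) fun j => by
      rw [← map_pow, Polynomial.eval_map]
      have h1 : P.eval₂ (Int.castRingHom A) (π (X ^ j)) = π (P.comp (X ^ j)) := by
        rw [Polynomial.comp, Polynomial.hom_eval₂]
        congr 1
      rw [h1, hπ, Polynomial.aeval_comp, map_pow, aeval_X]
      exact hx j
    rw [hdeg] at hS
    have h2 : π (X ^ S * (X ^ P.natDegree.factorial - 1) ^ KK P.natDegree) = 0 := by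
      rw [map_mul, map_pow, map_pow, map_sub, map_pow, map_one]
      exact hS
    rw [hπ, map_mul, map_pow, map_pow, map_sub, map_pow, map_one, aeval_X] at h2
    have h3 : IsUnit ((x : B) ^ S) := (x.isUnit).pow S
    exact (h3.mul_right_eq_zero).1 h2
  · have h1 : π 1 = 0 := Subsingleton.elim _ _
    rw [hπ, map_one] at h1
    have : Subsingleton B := subsingleton_of_zero_eq_one h1.symm
    exact Subsingleton.elim _ _

theorem pow_expand_poly (n : ℕ) : ∃ g : ℤ[X], (1 + X) ^ n = 1 + (n : ℤ[X]) * X + X ^ 2 * g := by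
  induction n with
  | zero => exact ⟨0, by simp⟩
  | succ n ih =>
    obtain ⟨g, hg⟩ := ih
    refine ⟨(n : ℤ[X]) + g + g * X, ?_⟩
    rw [pow_succ, hg]
    push_cast
    ring

/-- Expansion of a power up to the second order. -/
theorem pow_expand {B : Type u} [Ring B] (w : B) (n : ℕ) :
    ∃ g : ℤ[X], (1 + w) ^ n = 1 + (n : B) * w + w ^ 2 * aeval w g := by
  obtain ⟨g, hg⟩ := pow_expand_poly n
  refine ⟨g, ?_⟩
  have h1 := congrArg (aeval w) hg
  rw [map_pow, map_add, map_one, aeval_X, map_add, map_add, map_one, map_mul, map_mul, map_natCast,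
    map_pow, aeval_X] at h1
  exact h1

/-- The elements `α w + w ^ 2 q(w)`. -/
def InS {B : Type u} [Ring B] (w : B) (α : ℤ) (b : B) : Prop :=
  ∃ q : ℤ[X], b = (α : B) * w + w ^ 2 * aeval w q

/-- Conjugation as a ring endomorphism. -/
def cj {B : Type u} [Ring B] (u : Bˣ) : B →+* B where
  toFun b := u * b * (↑u⁻¹ : B)
  map_one' := by simp
  map_zero' := by simp
  map_add' a b := by rw [mul_add, add_mul]
  map_mul' a b := by
    show (u : B) * (a * b) * ↑u⁻¹ = (u : B) * a * ↑u⁻¹ * (u * b * ↑u⁻¹)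
    simp [mul_assoc]

theorem cj_apply {B : Type u} [Ring B] (u : Bˣ) (b : B) : cj u b = u * b * (↑u⁻¹ : B) := rfl

/-- The action of the conjugation on `InS`. -/
theorem inS_step {B : Type u} [Ring B] (u : Bˣ) (w : B) (l : ℕ) (h : cj u (1 + w) = (1 + w) ^ l)
    (α : ℤ) (b : B) (hb : InS w α b) : InS w (((l : ℤ) - 1) * α) (cj u b - b) := by
  obtain ⟨q, rfl⟩ := hb
  obtain ⟨g, hg⟩ := pow_expand w l
  obtain ⟨r, hr⟩ : ∃ r : ℤ[X], r = (l : ℤ[X]) * X + X ^ 2 * g := ⟨_, rfl⟩
  have hw : cj u w = aeval w r := by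
    rw [map_add, map_one, hg] at h
    rw [hr, map_add, map_mul, map_mul, map_natCast, aeval_X, map_pow, aeval_X]
    exact add_left_cancel (h.trans (add_assoc _ _ _))
  have hq : cj u (aeval w q) = aeval w (q.comp r) := by
    have h1 := Polynomial.aeval_algHom_apply (cj u).toIntAlgHom w q
    have h2 : (cj u).toIntAlgHom w = aeval w r := hw
    rw [h2] at h1
    rw [Polynomial.aeval_comp]
    exact h1.symm
  have key : cj u ((α : B) * w + w ^ 2 * aeval w q) =
      aeval w ((α : ℤ[X]) * r + r ^ 2 * q.comp r) := by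
    have e3 : aeval w ((α : ℤ[X]) * r + r ^ 2 * q.comp r) =
        (α : B) * aeval w r + (aeval w r) ^ 2 * aeval w (q.comp r) := by
      rw [map_add, map_mul, map_mul, map_pow, map_intCast]
    rw [e3, map_add, map_mul, map_mul, map_pow, hw, hq, map_intCast]
  refine ⟨(α : ℤ[X]) * g + ((l : ℤ[X]) + X * g) ^ 2 * q.comp r - q, ?_⟩
  have e1 : (α : B) * w + w ^ 2 * aeval w q = aeval w ((α : ℤ[X]) * X + X ^ 2 * q) := by
    rw [map_add, map_mul, map_mul, map_pow, aeval_X, map_intCast]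
  have e2 : ((((l : ℤ) - 1) * α : ℤ) : B) * w +
      w ^ 2 * aeval w ((α : ℤ[X]) * g + ((l : ℤ[X]) + X * g) ^ 2 * q.comp r - q) =
      aeval w (((((l : ℤ) - 1) * α : ℤ) : ℤ[X]) * X + X ^ 2 *
        ((α : ℤ[X]) * g + ((l : ℤ[X]) + X * g) ^ 2 * q.comp r - q)) := by
    rw [map_add, map_mul, map_intCast, aeval_X, map_mul, map_pow, aeval_X]
  rw [key, e1, e2, ← map_sub]
  congr 1
  rw [hr]
  push_cast
  ring

/-- The unipotent part: `u (1 + w) u⁻¹ = (1 + w) ^ l`, `(u - 1) ^ K = 0`, `w ^ K = 0`. -/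
theorem unip {B : Type u} [Ring B] (u : Bˣ) (w : B) (l K : ℕ)
    (h : cj u (1 + w) = (1 + w) ^ l) (hu : ((u : B) - 1) ^ K = 0) (hw : w ^ K = 0) :
    (((((l : ℤ) - 1) ^ (2 * K)) ^ K : ℤ) : B) * w = 0 := by
  -- conjugation as an additive endomorphism
  let D : Module.End ℤ B := (cj u).toAddMonoidHom.toIntLinearMap
  have hD : ∀ b, D b = cj u b := fun b => rfl
  have h1 : ∀ j : ℕ, InS w (((l : ℤ) - 1) ^ j) (((D - 1) ^ j) w) := by
    intro j
    induction j with
    | zero => exact ⟨0, by simp⟩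
    | succ j ih =>
      have h2 := inS_step u w l h _ _ ih
      rw [pow_succ' (D - 1), Module.End.mul_apply, pow_succ']
      exact h2
  have hD0 : (D - 1) ^ (2 * K) = 0 := by
    let P : Module.End ℤ B := LinearMap.mulLeft ℤ (u : B)
    let Q : Module.End ℤ B := LinearMap.mulRight ℤ ((u⁻¹ : Bˣ) : B)
    have hPQ : Commute P Q := LinearMap.commute_mulLeft_right _ _
    have hDP : D = P * Q := by
      ext b
      show (u : B) * b * _ = (u : B) * (b * _)
      rw [mul_assoc]
    have hP : (P - 1) ^ K = 0 := by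
      have e1 : P - 1 = LinearMap.mulLeft ℤ ((u : B) - 1) := by
        ext b
        show (u : B) * b - b = ((u : B) - 1) * b
        rw [sub_mul, one_mul]
      rw [e1, LinearMap.pow_mulLeft, hu]
      ext b
      simp
    have hQ : (Q - 1) ^ K = 0 := by
      have e1 : Q - 1 = LinearMap.mulRight ℤ (((u⁻¹ : Bˣ) : B) - 1) := by
        ext b
        show b * _ - b = b * (_ - 1)
        rw [mul_sub, mul_one]
      have e2 : (((u⁻¹ : Bˣ) : B) - 1) ^ K = 0 := by
        have e3 : ((u⁻¹ : Bˣ) : B) - 1 = -(((u⁻¹ : Bˣ) : B)) * ((u : B) - 1) := by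
          rw [mul_sub, mul_one, neg_mul, Units.inv_mul]
          abel
        have e4 : Commute (-(((u⁻¹ : Bˣ) : B))) ((u : B) - 1) := by
          apply Commute.neg_left
          apply Commute.sub_right _ (Commute.one_right _)
          show _ * _ = _ * _
          rw [Units.inv_mul, Units.mul_inv]
        rw [e3, e4.mul_pow, hu, mul_zero]
      rw [e1, LinearMap.pow_mulRight, e2]
      ext b
      simp
    have hsum : D - 1 = (P - 1) * Q + (Q - 1) := by
      rw [hDP, sub_mul, one_mul]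
      abel
    have hc1 : Commute (P - 1) Q := Commute.sub_left hPQ (Commute.one_left _)
    have hc : Commute ((P - 1) * Q) (Q - 1) := by
      apply Commute.mul_left
      · exact Commute.sub_right hc1 (Commute.one_right _)
      · exact Commute.sub_right (Commute.refl _) (Commute.one_right _)
    rw [hsum]
    refine hc.add_pow_eq_zero_of_add_le_succ_of_pow_eq_zero (m := K) (n := K) ?_ hQ (by omega)
    rw [hc1.mul_pow, hP, zero_mul]
  obtain ⟨q, hq⟩ := h1 (2 * K)
  rw [hD0, LinearMap.zero_apply] at hq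
  set c : ℤ := ((l : ℤ) - 1) ^ (2 * K) with hc
  -- `c w = w ^ 2 b`
  have h2 : (c : B) * w = w ^ 2 * aeval w (-q) := by
    rw [map_neg, mul_neg]
    exact eq_neg_of_add_eq_zero_left hq.symm
  have h3 : ∀ j : ℕ, ((c ^ j : ℤ) : B) * w = w ^ (j + 1) * aeval w ((-q) ^ j) := by
    intro j
    induction j with
    | zero => simp
    | succ j ih =>
      have e1 : ((c ^ (j + 1) : ℤ) : B) * w = (c : B) * (((c ^ j : ℤ) : B) * w) := by
        rw [pow_succ', Int.cast_mul, mul_assoc]
      have e2 : (c : B) * (w ^ (j + 1) * aeval w ((-q) ^ j)) =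
          ((c : B) * w) * (w ^ j * aeval w ((-q) ^ j)) := by
        rw [pow_succ', mul_assoc, mul_assoc]
      rw [e1, ih, e2, h2]
      have e3 : w ^ 2 * aeval w (-q) * (w ^ j * aeval w ((-q) ^ j)) =
          aeval w (X ^ 2 * (-q) * (X ^ j * (-q) ^ j)) := by
        simp only [map_mul, map_pow, aeval_X]
      have e4 : w ^ (j + 1 + 1) * aeval w ((-q) ^ (j + 1)) =
          aeval w (X ^ (j + 1 + 1) * (-q) ^ (j + 1)) := by
        rw [map_mul, map_pow (aeval w) X, aeval_X]
      rw [e3, e4]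
      congr 1
      ring
  rw [h3 K, pow_succ, hw, zero_mul, zero_mul]

/-- `C w = 0` and `w ^ K = 0`. -/
theorem pow_one_of_nil {B : Type u} [Ring B] (w : B) (C K : ℕ) (hC : (C : B) * w = 0)
    (hw : w ^ K = 0) : (1 + w) ^ (C ^ K) = 1 := by
  obtain ⟨g, hg⟩ := pow_expand_poly C
  have h1 : ∀ j : ℕ, ∃ q : ℤ[X], (1 + w) ^ (C ^ j) = 1 + w ^ (2 ^ j) * aeval w q := by
    intro j
    induction j with
    | zero => exact ⟨1, by simp⟩
    | succ j ih =>
      obtain ⟨q, hq⟩ := ih
      refine ⟨q ^ 2 * g.comp (X ^ (2 ^ j) * q), ?_⟩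
      have h2 := congrArg (fun p => aeval (w ^ (2 ^ j) * aeval w q) p) hg
      simp only [map_pow, map_add, map_one, aeval_X, map_mul, map_natCast] at h2
      rw [pow_succ C, pow_mul, hq, h2]
      have h3 : (C : B) * (w ^ (2 ^ j) * aeval w q) = 0 := by
        obtain ⟨a, ha⟩ : ∃ a, 2 ^ j = a + 1 := ⟨2 ^ j - 1, by
          have : 0 < 2 ^ j := Nat.pow_pos (by norm_num)
          omega⟩
        rw [ha, pow_succ', ← mul_assoc, ← mul_assoc, hC, zero_mul, zero_mul]
      rw [h3, add_zero]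
      congr 1
      have h4 : w ^ (2 ^ j) * aeval w q = aeval w ((X : ℤ[X]) ^ (2 ^ j) * q) := by
        rw [map_mul, map_pow, aeval_X]
      rw [h4, ← Polynomial.aeval_comp, ← map_pow, ← map_mul]
      have h5 : w ^ (2 ^ (j + 1)) = aeval w ((X : ℤ[X]) ^ (2 ^ (j + 1))) := by
        rw [map_pow, aeval_X]
      rw [h5, ← map_mul]
      congr 1
      ring
  obtain ⟨q, hq⟩ := h1 K
  have h2 : w ^ (2 ^ K) = 0 := pow_eq_zero_of_le (Nat.lt_two_pow_self).le hw
  rw [hq, h2, zero_mul, add_zero]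

theorem mono_comm {G : Type v} [Group G] {e : ℕ} (x t : G) (h : t * x * t⁻¹ = x ^ e) (n : ℕ) :
    t * x ^ n = x ^ (e * n) * t := by
  have h1 : t * x ^ n * t⁻¹ = x ^ (e * n) := by
    rw [pow_mul, ← h, conj_pow]
  rw [← h1]
  group

/-- Products of the elements `x ^ i * t`. -/
theorem mono_prod {G : Type v} [Group G] {e : ℕ} (x t : G) (h : t * x * t⁻¹ = x ^ e) :
    ∀ (m : ℕ) (c : Fin m → ℕ),
      (List.ofFn fun i => x ^ c i * t).prod = x ^ (∑ i : Fin m, e ^ (i : ℕ) * c i) * t ^ m := by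
  intro m
  induction m with
  | zero => intro c; simp
  | succ m ih =>
    intro c
    rw [List.ofFn_succ, List.prod_cons, ih (fun i => c i.succ), Fin.sum_univ_succ]
    have h1 : (∑ i : Fin m, e ^ ((i.succ : Fin (m + 1)) : ℕ) * c i.succ)
        = e * ∑ i : Fin m, e ^ (i : ℕ) * c i.succ := by
      rw [Finset.mul_sum]
      apply Finset.sum_congr rfl
      intro i _
      rw [Fin.val_succ, pow_succ]
      ring
    rw [h1, mul_assoc, ← mul_assoc t, mono_comm x t h, pow_succ' t m]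
    simp only [Fin.val_zero, pow_zero, one_mul, pow_add, mul_assoc]

/-- The polynomial of the identity. -/
noncomputable def PP (e m : ℕ) (a : Equiv.Perm (Fin m) → ℤ) : ℤ[X] :=
  ∑ σ, C (a σ) * X ^ exE e m σ

theorem PP_monic (e m : ℕ) (he : 2 ≤ e) (a : Equiv.Perm (Fin m) → ℤ) (ha : a 1 = 1) :
    (PP e m a).Monic ∧ (PP e m a).natDegree = exE e m 1 := by
  classical
  have h1 := (sexE e m he).1
  have h2 : PP e m a = X ^ exE e m 1 + ∑ σ ∈ Finset.univ.erase 1, C (a σ) * X ^ exE e m σ := by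
    rw [PP, ← Finset.add_sum_erase _ _ (Finset.mem_univ (1 : Equiv.Perm (Fin m))), ha]
    simp
  have h3 : (∑ σ ∈ Finset.univ.erase (1 : Equiv.Perm (Fin m)), C (a σ) * X ^ exE e m σ).degree <
      ((exE e m 1 : ℕ) : WithBot ℕ) := by
    refine lt_of_le_of_lt (Polynomial.degree_sum_le _ _) ?_
    rw [Finset.sup_lt_iff (WithBot.bot_lt_coe _)]
    intro σ hσ
    refine lt_of_le_of_lt (Polynomial.degree_C_mul_X_pow_le _ _) ?_
    exact_mod_cast h1 σ (Finset.ne_of_mem_erase hσ)
  rw [h2]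
  refine ⟨Polynomial.monic_X_pow_add h3, ?_⟩
  rw [Polynomial.natDegree_add_eq_left_of_degree_lt (by rwa [Polynomial.degree_X_pow]),
    Polynomial.natDegree_X_pow]

/-- The bound for the exponent. -/
def FF (m e : ℕ) : ℕ :=
  (exE e m 1).factorial *
    (((e ^ (exE e m 1).factorial - 1) ^ (2 * KK (exE e m 1))) ^ KK (exE e m 1)) ^ KK (exE e m 1)

theorem FF_pos (m e : ℕ) (he : 2 ≤ e) : 0 < FF m e := by
  have h1 : 0 < e ^ (exE e m 1).factorial - 1 := by
    have h2 : e ^ 1 ≤ e ^ (exE e m 1).factorial :=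
      Nat.pow_le_pow_right (by omega) (Nat.factorial_pos _)
    rw [pow_one] at h2
    omega
  exact Nat.mul_pos (Nat.factorial_pos _) (Nat.pow_pos (Nat.pow_pos (Nat.pow_pos h1)))

/-- A group in which every `x` is conjugate to `x ^ e` in a ring with a multilinear identity of
degree `m` has exponent dividing `FF m e`. No finiteness is assumed. -/
theorem exp_pi {G : Type v} [Group G] {B : Type u} [Ring B] (φ : G →* B) (m e : ℕ) (he : 2 ≤ e)
    (h3 : ∀ x : G, IsConj x (x ^ e)) (a : Equiv.Perm (Fin m) → ℤ) (ha : a 1 = 1)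
    (hid : ∀ y : Fin m → G, ∑ σ, a σ • φ (List.ofFn fun i => y (σ i)).prod = 0) (x : G) :
    φ (x ^ FF m e) = 1 := by
  classical
  obtain ⟨hmon, hdeg⟩ := PP_monic e m he a ha
  -- every element is a root
  have hroot : ∀ g : G, aeval (φ g) (PP e m a) = 0 := by
    intro g
    obtain ⟨t, ht⟩ := isConj_iff.1 (h3 g)
    have h1 := hid fun i => g ^ (i : ℕ) * t
    have h2 : ∀ σ : Equiv.Perm (Fin m),
        φ (List.ofFn fun i => g ^ ((σ i : Fin m) : ℕ) * t).prod =
          φ g ^ exE e m σ * φ (t ^ m) := by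
      intro σ
      rw [mono_prod g t ht m (fun i => ((σ i : Fin m) : ℕ)), map_mul, map_pow]
      rfl
    simp only [h2, zsmul_eq_mul] at h1
    have h4 : (aeval (φ g) (PP e m a)) * φ (t ^ m) = 0 := by
      rw [← h1, PP, map_sum, Finset.sum_mul]
      refine Finset.sum_congr rfl fun σ _ => ?_
      rw [map_mul, aeval_C, map_pow, aeval_X, mul_assoc]
      simp
    have h5 : φ (t ^ m) * φ ((t ^ m)⁻¹) = 1 := by rw [← map_mul, mul_inv_cancel, map_one]
    calc aeval (φ g) (PP e m a) = (aeval (φ g) (PP e m a)) * φ (t ^ m) * φ ((t ^ m)⁻¹) := by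
          rw [mul_assoc, h5, mul_one]
      _ = 0 := by rw [h4, zero_mul]
  let un : G →* Bˣ := φ.toHomUnits
  have hun : ∀ g, ((un g : Bˣ) : B) = φ g := fun g => rfl
  set L := (exE e m 1).factorial with hL
  set K := KK (exE e m 1) with hK
  have hnil : ∀ g : G, (φ g ^ L - 1) ^ K = 0 := by
    intro g
    have h1 := root_pow_ring (PP e m a) hmon (un g) fun j => by
      rw [hun, ← map_pow]
      exact hroot _
    rw [hdeg, hun] at h1
    exact h1
  obtain ⟨t, ht⟩ := isConj_iff.1 (h3 x)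
  have htL : t ^ L * x * (t ^ L)⁻¹ = x ^ (e ^ L) := by
    have : ∀ j : ℕ, t ^ j * x * (t ^ j)⁻¹ = x ^ (e ^ j) := by
      intro j
      induction j with
      | zero => simp
      | succ n ih =>
        have : t ^ (n + 1) * x * (t ^ (n + 1))⁻¹ = t * (t ^ n * x * (t ^ n)⁻¹) * t⁻¹ := by
          rw [pow_succ']; group
        rw [this, ih, ← conj_pow, ht, ← pow_mul, pow_succ']
    exact this L
  let w : B := φ x ^ L - 1
  have hw1 : 1 + w = φ (x ^ L) := by
    show 1 + (φ x ^ L - 1) = _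
    rw [map_pow]
    abel
  have hcj : cj (un (t ^ L)) (1 + w) = (1 + w) ^ (e ^ L) := by
    rw [hw1, cj_apply, ← map_inv un, hun, hun, ← map_mul, ← map_mul, ← map_pow]
    congr 1
    rw [← conj_pow, htL, ← pow_mul, ← pow_mul, mul_comm]
  have hT : ((un (t ^ L) : B) - 1) ^ K = 0 := by
    rw [hun, map_pow]
    exact hnil t
  have h4 := unip (un (t ^ L)) w (e ^ L) K hcj hT (hnil x)
  have h5 : 1 ≤ e ^ L := Nat.one_le_pow _ _ (by omega)
  have h6 : ((((((e ^ L : ℕ) : ℤ) - 1) ^ (2 * K)) ^ K : ℤ) : B) =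
      ((((e ^ L - 1) ^ (2 * K)) ^ K : ℕ) : B) := by
    rw [← Int.cast_natCast (R := B)]
    congr 1
    push_cast [h5]
    rfl
  rw [h6] at h4
  have h7 := pow_one_of_nil w _ K h4 (hnil x)
  rw [hw1, ← map_pow, ← pow_mul] at h7
  exact h7

end Pool.Agent.H64.RE
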