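import Pool.Agent.H64.RE.Sub
import Pool.Agent.H64.RE.ExpA

set_option autoImplicit false

/-! # The exponent of groups with `x ~ x ^ e` and a subnormal series whose factors are abelian, finite
2-groups of bounded rank or in rings with a polynomial identity (helper64) -/

namespace Pool.Agent.H64.RE

open Subgroup
open Pool.Agent.H50.RatTwo (fin_family exists_selfCentralizing)

universe u v

/-- A multilinear identity of degree `j` with the coefficient 1 at one monomial. -/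
def IdenU {G : Type v} {B : Type u} [Group G] [Ring B] (j : ℕ) (φ : G →* B) : Prop :=
  ∃ a : Equiv.Perm (Fin j) → ℤ, a 1 = 1 ∧
    ∀ y : Fin j → G, ∑ σ, a σ • φ (List.ofFn fun i => y (σ i)).prod = 0

/-- A ring of any universe may be replaced by a quotient of the integral group ring. -/
theorem small_ringU {G : Type v} [Group G] {B : Type u} [Ring B] (φ : G →* B) (m : ℕ)
    (hid : ∃ a : Equiv.Perm (Fin m) → ℤ, a 1 = 1 ∧
      ∀ y : Fin m → G, ∑ σ, a σ • φ (List.ofFn fun i => y (σ i)).prod = 0) :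
    ∃ (B' : Type v) (_ : Ring B') (φ' : G →* B'), IdenU m φ' ∧ ∀ x, φ' x = 1 ↔ φ x = 1 := by
  let F : MonoidAlgebra ℤ G →+* B :=
    (MonoidAlgebra.lift ℤ B G φ : MonoidAlgebra ℤ G →ₐ[ℤ] B).toRingHom
  have hF : ∀ g : G, F (MonoidAlgebra.of ℤ G g) = φ g := by
    intro g
    show (MonoidAlgebra.lift ℤ B G φ) (MonoidAlgebra.of ℤ G g) = φ g
    simp
  let q : MonoidAlgebra ℤ G →+* (MonoidAlgebra ℤ G ⧸ RingHom.ker F) := Ideal.Quotient.mk _
  have hq : ∀ z : MonoidAlgebra ℤ G, q z = 0 ↔ F z = 0 := by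
    intro z
    rw [Ideal.Quotient.eq_zero_iff_mem, RingHom.mem_ker]
  let φ' : G →* (MonoidAlgebra ℤ G ⧸ RingHom.ker F) :=
    (q : MonoidAlgebra ℤ G →* (MonoidAlgebra ℤ G ⧸ RingHom.ker F)).comp (MonoidAlgebra.of ℤ G)
  have hφ' : ∀ x, φ' x = q (MonoidAlgebra.of ℤ G x) := fun x => rfl
  refine ⟨MonoidAlgebra ℤ G ⧸ RingHom.ker F, inferInstance, φ', ?_, ?_⟩
  · obtain ⟨a, ha1, ha2⟩ := hid
    refine ⟨a, ha1, fun y => ?_⟩
    have h1 : ∀ σ : Equiv.Perm (Fin m), a σ • φ' (List.ofFn fun i => y (σ i)).prod =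
        q (a σ • MonoidAlgebra.of ℤ G (List.ofFn fun i => y (σ i)).prod) := by
      intro σ
      rw [hφ', map_zsmul]
    rw [Finset.sum_congr rfl fun σ _ => h1 σ, ← map_sum, hq, map_sum]
    rw [← ha2 y]
    refine Finset.sum_congr rfl fun σ _ => ?_
    rw [map_zsmul, hF]
  · intro x
    have h1 : φ' x = 1 ↔ q (MonoidAlgebra.of ℤ G x - 1) = 0 := by
      rw [map_sub, map_one, sub_eq_zero, hφ']
    rw [h1, hq, map_sub, map_one, hF, sub_eq_zero]

/-- The condition on a factor. -/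
def FacE (r m : ℕ) (Q : Type v) [Group Q] : Prop :=
  (∀ x y : Q, x * y = y * x) ∨
  (Finite Q ∧ IsPGroup 2 Q ∧
    ∀ L : Subgroup Q, ∃ s : Finset Q, s.card ≤ r ∧ L = closure (s : Set Q)) ∨
  ∃ j ≤ m, ∃ (B : Type v) (_ : Ring B) (φ : Q →* B), IdenU j φ ∧ Function.Injective φ

/-- The order of a finite 2-group of rank at most `r`. -/
theorem card_le_rank {e : ℕ} (he : 2 ≤ e) (r : ℕ) (Q : Type) [Group Q] [Finite Q]
    (hp : IsPGroup 2 Q) (h3 : ∀ x : Q, IsConj x (x ^ e))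
    (hrk : ∀ L : Subgroup Q, ∃ s : Finset Q, s.card ≤ r ∧ L = closure (s : Set Q)) :
    Nat.card Q ≤ ((vand e r).natAbs ^ r) * ((vand e r).natAbs ^ r) ^ ((vand e r).natAbs ^ r) := by
  have : Fact (Nat.Prime 2) := ⟨Nat.prime_two⟩
  obtain ⟨A, hAn, hA, hAc⟩ := exists_selfCentralizing 2 hp
  obtain ⟨t, ht, hAt⟩ := hrk A
  obtain ⟨b, hb⟩ := fin_family t r ht
  exact card_le_gen he h3 r A hAn hA hAc b (hb.trans hAt.symm)

/-- The same in any universe. -/
theorem card_le_rankU {e : ℕ} (he : 2 ≤ e) (r : ℕ) (Q : Type v) [Group Q] [Finite Q]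
    (hp : IsPGroup 2 Q) (h3 : ∀ x : Q, IsConj x (x ^ e))
    (hrk : ∀ L : Subgroup Q, ∃ s : Finset Q, s.card ≤ r ∧ L = closure (s : Set Q)) :
    Nat.card Q ≤ ((vand e r).natAbs ^ r) * ((vand e r).natAbs ^ r) ^ ((vand e r).natAbs ^ r) := by
  classical
  have : Small.{0} Q := Countable.toSmall Q
  let f : Shrink.{0} Q ≃* Q := Shrink.mulEquiv
  have : Finite (Shrink.{0} Q) := Finite.of_equiv _ f.symm.toEquiv
  have h1 := card_le_rank he r (Shrink.{0} Q) (hp.of_equiv f.symm) (fun x => by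
      have h2 := MonoidHom.map_isConj f.symm.toMonoidHom (h3 (f x))
      rw [map_pow] at h2
      have h4 : f.symm.toMonoidHom (f x) = x := f.symm_apply_apply x
      rwa [h4] at h2) (fun L => by
      obtain ⟨s, hs, hL⟩ := hrk (L.map f.toMonoidHom)
      refine ⟨s.image f.symm, Finset.card_image_le.trans hs, ?_⟩
      have h2 : ((s.image f.symm : Finset (Shrink.{0} Q)) : Set (Shrink.{0} Q)) =
          f.symm.toMonoidHom '' (s : Set Q) := by
        rw [Finset.coe_image]; rfl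
      rw [h2, ← MonoidHom.map_closure, ← hL, Subgroup.map_map]
      have h5 : f.symm.toMonoidHom.comp f.toMonoidHom = MonoidHom.id _ := by
        refine MonoidHom.ext fun x => ?_
        exact f.symm_apply_apply x
      rw [h5, Subgroup.map_id])
  rwa [Nat.card_congr f.toEquiv] at h1

/-- The exponent of a single factor. -/
theorem fac_exp (e r m : ℕ) (he : 2 ≤ e) : ∃ f : ℕ, 0 < f ∧ ∀ (Q : Type v) [Group Q],
    (∀ x : Q, IsConj x (x ^ e)) → FacE r m Q → ∀ x : Q, x ^ f = 1 := by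
  classical
  set β := ((vand e r).natAbs ^ r) * ((vand e r).natAbs ^ r) ^ ((vand e r).natAbs ^ r) with hβ
  refine ⟨(e - 1) * (β.factorial * ∏ j ∈ Finset.range (m + 1), FF j e), ?_, ?_⟩
  · exact Nat.mul_pos (by omega) (Nat.mul_pos (Nat.factorial_pos _)
      (Finset.prod_pos fun j _ => FF_pos j e he))
  intro Q _ h3 hfac x
  rcases hfac with hab | ⟨hfin, hp, hrk⟩ | ⟨j, hj, B, hB, φ, hφ, hinj⟩
  · have h1 : x ^ (e - 1) = 1 := by
      obtain ⟨t, ht⟩ := isConj_iff.1 (h3 x)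
      rw [hab t x, mul_assoc, mul_inv_cancel, mul_one] at ht
      have h2 : x ^ (e - 1) * x = x := by
        rw [← pow_succ, Nat.sub_add_cancel (by omega)]
        exact ht.symm
      exact mul_eq_right.1 h2
    rw [pow_mul, h1, one_pow]
  · have h1 : Nat.card Q ≤ β := card_le_rankU he r Q hp h3 hrk
    have h2 : Nat.card Q ∣ β.factorial := Nat.dvd_factorial Nat.card_pos h1
    obtain ⟨c, hc⟩ := h2
    have h4 : x ^ Nat.card Q = 1 := pow_card_eq_one'
    rw [hc, mul_comm (e - 1), mul_assoc, mul_assoc, pow_mul, h4, one_pow]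
  · have h1 : φ (x ^ FF j e) = 1 := by
      obtain ⟨a, ha1, ha2⟩ := hφ
      exact exp_pi φ j e he h3 a ha1 ha2 x
    have h2 : x ^ FF j e = 1 := hinj (by rw [h1, map_one])
    obtain ⟨c, hc⟩ := Finset.dvd_prod_of_mem (fun j => FF j e)
      (Finset.mem_range.2 (Nat.lt_succ_of_le hj))
    rw [hc]
    have h4 : (e - 1) * (β.factorial * (FF j e * c)) = FF j e * ((e - 1) * β.factorial * c) := by
      ring
    rw [h4, pow_mul, h2, one_pow]

/-- The condition on the factor `K / H`, `H` normal in `K`. -/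
def FSubE (G : Type v) [Group G] (r m : ℕ) (H K : Subgroup G) : Prop :=
  (H.subgroupOf K).Normal ∧ (⁅K, K⁆ ≤ H ∨
  (H.relIndex K ≠ 0 ∧ (∀ x ∈ K, ∃ l : ℕ, x ^ (2 ^ l) ∈ H) ∧
    ∀ L : Subgroup G, H ≤ L → L ≤ K → ∃ s : Finset G, s.card ≤ r ∧ L = H ⊔ closure (s : Set G)) ∨
  ∃ j ≤ m, ∃ (B : Type v) (_ : Ring B) (φ : K →* B), IdenU j φ ∧ ∀ x : K, φ x = 1 ↔ (x : G) ∈ H)

/-- The condition passes to a subgroup containing `K`. -/
theorem fsubE_sub {G : Type v} [Group G] (r m : ℕ) (H K N : Subgroup G) (hHK : H ≤ K) (hKN : K ≤ N)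
    (h : FSubE G r m H K) : FSubE N r m (H.subgroupOf N) (K.subgroupOf N) := by
  classical
  obtain ⟨hn, h⟩ := h
  have hmap : ∀ L : Subgroup G, L ≤ N → (L.subgroupOf N).map N.subtype = L := by
    intro L hL
    rw [Subgroup.subgroupOf_map_subtype]
    exact inf_eq_left.2 hL
  refine ⟨?_, ?_⟩
  · constructor
    rintro ⟨⟨x, hxN⟩, hxK⟩ hx ⟨⟨g, hgN⟩, hgK⟩
    exact hn.conj_mem ⟨x, hxK⟩ hx ⟨g, hgK⟩
  rcases h with h | ⟨h1, h2, h⟩ | ⟨j, hj, B, hB, φ, hφ, hker⟩
  · left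
    rw [← Subgroup.map_subtype_le_map_subtype, Subgroup.map_commutator, hmap K hKN,
      hmap H (hHK.trans hKN)]
    exact h
  · refine Or.inr (Or.inl ⟨?_, ?_, ?_⟩)
    · rw [Subgroup.relIndex_subgroupOf hKN]
      exact h1
    · rintro ⟨x, hxN⟩ hx
      exact h2 x hx
    · intro L hL1 hL2
      obtain ⟨t, ht, hLt⟩ := h (L.map N.subtype)
        (by rw [← hmap H (hHK.trans hKN)]; exact Subgroup.map_mono hL1)
        (by rw [← hmap K hKN]; exact Subgroup.map_mono hL2)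
      have htN : ∀ x ∈ t, x ∈ N := by
        intro x hx
        have h1 : x ∈ L.map N.subtype := by
          rw [hLt]
          exact mem_sup_right (subset_closure hx)
        exact (Subgroup.map_subtype_le L) h1
      refine ⟨t.subtype (fun x => x ∈ N), (Finset.card_subtype _ _).le.trans
        ((Finset.card_filter_le _ _).trans ht), ?_⟩
      apply Subgroup.map_injective N.subtype_injective
      rw [Subgroup.map_sup, hmap H (hHK.trans hKN), MonoidHom.map_closure, hLt]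
      congr 2
      ext x
      simp only [Set.mem_image, Finset.mem_coe, Finset.mem_subtype]
      constructor
      · intro hx
        exact ⟨⟨x, htN x hx⟩, hx, rfl⟩
      · rintro ⟨y, hy, rfl⟩
        exact hy
  · right; right
    let ι : K.subgroupOf N →* K := (Subgroup.subgroupOfEquivOfLe hKN).toMonoidHom
    have hι : ∀ x : K.subgroupOf N, ((ι x : K) : G) = ((x : N) : G) := fun x => rfl
    refine ⟨j, hj, B, hB, φ.comp ι, ?_, ?_⟩
    · obtain ⟨a, ha1, ha2⟩ := hφ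
      refine ⟨a, ha1, fun y => ?_⟩
      rw [← ha2 fun i => ι (y i)]
      refine Finset.sum_congr rfl fun σ _ => ?_
      rw [MonoidHom.comp_apply, map_list_prod ι, List.map_ofFn]
      rfl
    · intro x
      rw [MonoidHom.comp_apply, hker, hι]
      rfl

/-- The top factor. -/
theorem facE_quot {G : Type v} [Group G] (r m : ℕ) (H : Subgroup G) [hHn : H.Normal]
    (hfac : ⁅(⊤ : Subgroup G), (⊤ : Subgroup G)⁆ ≤ H ∨
      (H.relIndex ⊤ ≠ 0 ∧ (∀ x ∈ (⊤ : Subgroup G), ∃ l : ℕ, x ^ (2 ^ l) ∈ H) ∧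
        ∀ L : Subgroup G, H ≤ L → L ≤ ⊤ →
          ∃ s : Finset G, s.card ≤ r ∧ L = H ⊔ closure (s : Set G)) ∨
      ∃ j ≤ m, ∃ (B : Type v) (_ : Ring B) (φ : (⊤ : Subgroup G) →* B), IdenU j φ ∧
        ∀ x : (⊤ : Subgroup G), φ x = 1 ↔ (x : G) ∈ H) : FacE r m (G ⧸ H) := by
  classical
  let π := QuotientGroup.mk' H
  have hπ : Function.Surjective π := QuotientGroup.mk'_surjective H
  rcases hfac with h | ⟨h0, h2, h⟩ | ⟨j, hj, B, hB, φ, hφ, hker⟩
  · left
    intro x y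
    obtain ⟨x, rfl⟩ := hπ x
    obtain ⟨y, rfl⟩ := hπ y
    rw [← map_mul, ← map_mul]
    apply (QuotientGroup.eq).2
    have h1 := h (Subgroup.commutator_mem_commutator (mem_top y⁻¹) (mem_top x⁻¹))
    rw [commutatorElement_def] at h1
    have h2 : (x * y)⁻¹ * (y * x) = y⁻¹ * x⁻¹ * y⁻¹⁻¹ * x⁻¹⁻¹ := by group
    rw [h2]
    exact h1
  · right; left
    refine ⟨?_, ?_, ?_⟩
    · rw [Subgroup.relIndex_top_right, Subgroup.index] at h0
      exact (Nat.card_ne_zero.1 h0).2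
    · intro x
      obtain ⟨x, rfl⟩ := hπ x
      obtain ⟨l, hl⟩ := h2 x (mem_top x)
      refine ⟨l, ?_⟩
      rw [← map_pow]
      exact (QuotientGroup.eq_one_iff _).2 hl
    · intro L
      obtain ⟨t, ht, hLt⟩ := h (L.comap π) (by
        intro x hx
        rw [Subgroup.mem_comap]
        have h1 : π x = 1 := (QuotientGroup.eq_one_iff x).2 hx
        rw [h1]
        exact one_mem _) le_top
      refine ⟨t.image π, Finset.card_image_le.trans ht, ?_⟩
      have h1 : H.map π = ⊥ := by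
        rw [Subgroup.map_eq_bot_iff, QuotientGroup.ker_mk']
      rw [Finset.coe_image, ← MonoidHom.map_closure,
        ← Subgroup.map_comap_eq_self_of_surjective hπ L, hLt, Subgroup.map_sup, h1,
        bot_sup_eq]
  · right; right
    let φ' : G →* B := φ.comp (Subgroup.topEquiv.symm : G ≃* (⊤ : Subgroup G)).toMonoidHom
    have hφ'k : ∀ x : G, φ' x = 1 ↔ x ∈ H := fun x => hker ⟨x, mem_top x⟩
    let ψ0 : G ⧸ H →* Bˣ := QuotientGroup.lift H φ'.toHomUnits (by
      intro x hx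
      apply Units.ext
      exact (hφ'k x).2 hx)
    let ψ : G ⧸ H →* B := (Units.coeHom B).comp ψ0
    have hψ : ∀ x : G, ψ (π x) = φ' x := fun x => rfl
    refine ⟨j, hj, B, hB, ψ, ?_, ?_⟩
    · obtain ⟨a, ha1, ha2⟩ := hφ
      refine ⟨a, ha1, fun y => ?_⟩
      choose z hz using fun i => hπ (y i)
      have h1 := ha2 fun i => (⟨z i, mem_top _⟩ : (⊤ : Subgroup G))
      rw [← h1]
      refine Finset.sum_congr rfl fun σ _ => ?_
      congr 1
      have h2 : (List.ofFn fun i => y (σ i)).prod =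
          π ((List.ofFn fun i => z (σ i)).prod) := by
        rw [map_list_prod, List.map_ofFn]
        congr 2
        funext i
        exact (hz (σ i)).symm
      rw [h2, hψ]
      show φ _ = φ _
      congr 1
      apply Subtype.ext
      show (List.ofFn fun i => z (σ i)).prod = _
      have h3 := map_list_prod (⊤ : Subgroup G).subtype
        (List.ofFn fun i => (⟨z (σ i), mem_top _⟩ : (⊤ : Subgroup G)))
      rw [List.map_ofFn] at h3
      exact h3.symm
    · rw [injective_iff_map_eq_one']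
      intro x
      obtain ⟨x, rfl⟩ := hπ x
      rw [hψ, hφ'k]
      exact (QuotientGroup.eq_one_iff x).symm

/-- Conjugation by powers. -/
theorem conj_itU {G : Type v} [Group G] {e : ℕ} {x t : G} (h : t * x * t⁻¹ = x ^ e) (j : ℕ) :
    t ^ j * x * (t ^ j)⁻¹ = x ^ (e ^ j) := by
  induction j with
  | zero => simp
  | succ n ih =>
    have : t ^ (n + 1) * x * (t ^ (n + 1))⁻¹ = t * (t ^ n * x * (t ^ n)⁻¹) * t⁻¹ := by
      rw [pow_succ']; group
    rw [this, ih, ← conj_pow, h, ← pow_mul, pow_succ']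

/-- The theorem. -/
theorem exp_series (r m k : ℕ) : ∀ e : ℕ, 2 ≤ e → ∃ F : ℕ, 0 < F ∧ ∀ (G : Type v) [Group G],
    (∀ x : G, IsConj x (x ^ e)) → ∀ N : ℕ → Subgroup G, N 0 = ⊥ → N k = ⊤ →
    (∀ i < k, N i ≤ N (i + 1) ∧ FSubE G r m (N i) (N (i + 1))) → ∀ x : G, x ^ F = 1 := by
  induction k with
  | zero =>
    intro e _
    refine ⟨1, Nat.one_pos, ?_⟩
    intro G _ _ N h0 h1 _ x
    rw [h0] at h1
    have h2 : x ∈ (⊥ : Subgroup G) := by rw [h1]; exact mem_top x
    rw [pow_one]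
    exact Subgroup.mem_bot.1 h2
  | succ k ih =>
    intro e he
    obtain ⟨f, hf0, hf⟩ := fac_exp.{v} e r m he
    obtain ⟨F, hF0, hF⟩ := ih (e ^ f) (by
      calc 2 ≤ e ^ 1 := by rw [pow_one]; exact he
        _ ≤ e ^ f := Nat.pow_le_pow_right (by omega) hf0)
    refine ⟨f * F, Nat.mul_pos hf0 hF0, ?_⟩
    intro G _ h3 N hN0 hNk hN
    classical
    obtain ⟨-, hnorm, hfac⟩ := hN k (Nat.lt_succ_self k)
    rw [hNk] at hnorm hfac
    have hNn : (N k).Normal := by
      constructor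
      intro x hx g
      exact hnorm.conj_mem ⟨x, mem_top x⟩ hx ⟨g, mem_top g⟩
    have hle : ∀ i j, i ≤ j → j ≤ k → N i ≤ N j := by
      intro i j hij
      induction j, hij using Nat.le_induction with
      | base => intro _; exact le_rfl
      | succ j hij ihj =>
        intro hj
        exact (ihj (by omega)).trans (hN j (by omega)).1
    have hpow : ∀ x : G, x ^ f ∈ N k := by
      intro x
      have h1 := hf (G ⧸ N k) (fun y => by
        obtain ⟨y, rfl⟩ := QuotientGroup.mk'_surjective (N k) y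
        rw [← map_pow]
        exact MonoidHom.map_isConj (QuotientGroup.mk' (N k)) (h3 y))
        (facE_quot r m (N k) hfac) (QuotientGroup.mk' (N k) x)
      rw [← map_pow] at h1
      exact (QuotientGroup.eq_one_iff _).1 h1
    intro x
    have h4 := hF (N k) ?_ (fun i => (N i).subgroupOf (N k)) ?_ ?_ ?_ ⟨x ^ f, hpow x⟩
    · have h5 := congrArg Subtype.val h4
      rw [pow_mul]
      exact h5
    · intro y
      obtain ⟨t, ht⟩ := isConj_iff.1 (h3 (y : G))
      refine isConj_iff.2 ⟨⟨t ^ f, hpow t⟩, Subtype.ext ?_⟩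
      show t ^ f * (y : G) * (t ^ f)⁻¹ = (y : G) ^ (e ^ f)
      exact conj_itU ht _
    · show (N 0).subgroupOf (N k) = ⊥
      rw [hN0, Subgroup.bot_subgroupOf]
    · show (N k).subgroupOf (N k) = ⊤
      rw [Subgroup.subgroupOf_self]
    · intro i hi
      obtain ⟨h1, h2⟩ := hN i (by omega)
      exact ⟨Subgroup.comap_mono h1, fsubE_sub r m _ _ _ h1 (hle _ _ (by omega) le_rfl) h2⟩

/-- The final form. -/
theorem exponent (e r n m k : ℕ) (he : 2 ≤ e) :
    ∃ F : ℕ, 0 < F ∧ ∀ (G : Type v) [Group G], (∀ x : G, IsConj x (x ^ e)) →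
      ∀ N : ℕ → Subgroup G, N 0 = ⊥ → N k = ⊤ →
      (∀ i < k, N i ≤ N (i + 1) ∧ ((N i).subgroupOf (N (i + 1))).Normal ∧
        (⁅N (i + 1), N (i + 1)⁆ ≤ N i ∨
          ((N i).relIndex (N (i + 1)) ≠ 0 ∧ (∀ x ∈ N (i + 1), ∃ l : ℕ, x ^ (2 ^ l) ∈ N i) ∧
            ∀ L : Subgroup G, N i ≤ L → L ≤ N (i + 1) →
              ∃ s : Finset G, s.card ≤ r ∧ L = N i ⊔ Subgroup.closure (s : Set G)) ∨
          (∃ (R M : Type u) (_ : CommRing R) (_ : AddCommGroup M) (_ : Module R M) (v : Fin n → M)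
            (φ : N (i + 1) →* Module.End R M), Submodule.span R (Set.range v) = ⊤ ∧
              ∀ x, φ x = 1 ↔ (x : G) ∈ N i) ∨
          (∃ (A : Type u) (_ : Ring A) (φ : N (i + 1) →* A) (j : ℕ) (a : Equiv.Perm (Fin j) → ℤ),
            j ≤ m ∧ a 1 = 1 ∧
            (∀ y : Fin j → N (i + 1), ∑ σ, a σ • φ (List.ofFn fun l => y (σ l)).prod = 0) ∧
            ∀ x, φ x = 1 ↔ (x : G) ∈ N i))) →
      ∀ x : G, x ^ F = 1 := by
  obtain ⟨F, hF0, hF⟩ := exp_series r (max m (n * n + 1)) k e he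
  refine ⟨F, hF0, fun G _ h3 N h0 hk hN => hF G h3 N h0 hk fun i hi => ?_⟩
  obtain ⟨h1, h2, h4⟩ := hN i hi
  refine ⟨h1, h2, ?_⟩
  rcases h4 with h | h | ⟨R, M, _, _, _, v, φ, hv, hφ⟩ | ⟨A, hA, φ, j, a, hj, ha1, ha2, hφ⟩
  · exact Or.inl h
  · exact Or.inr (Or.inl h)
  · obtain ⟨B, hB, ψ, hψ1, hψ2⟩ := small_ringU φ (n * n + 1) (iden_end n v hv φ)
    exact Or.inr (Or.inr ⟨n * n + 1, le_max_right _ _, B, hB, ψ, hψ1,
      fun x => (hψ2 x).trans (hφ x)⟩)
  · obtain ⟨B, hB, ψ, hψ1, hψ2⟩ := small_ringU φ j ⟨a, ha1, ha2⟩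
    exact Or.inr (Or.inr ⟨j, hj.trans (le_max_left _ _), B, hB, ψ, hψ1,
      fun x => (hψ2 x).trans (hφ x)⟩)

end Pool.Agent.H64.RE
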