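import Mathlib
import Pool.Agent.H79.SelfCent

set_option autoImplicit false

/-! # 2-groups in which every element is conjugate to its `e`-th power (helper64): abelian normal
subgroups (generalises `H50.RatTwo` and `H79.SelfCent`, where `e = 3`) -/

namespace Pool.Agent.H64.RE

open Polynomial Subgroup
open Pool.Agent.H50.RatTwo (exists_poly)
open Pool.Agent.H79.SelfCent (gen_abelian card_elem)

/-- The Vandermonde number. -/
noncomputable def vand (e r : ℕ) : ℤ :=
  (Matrix.vandermonde (fun k : Fin (r + 1) => (e : ℤ) ^ (e ^ (k : ℕ)))).det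

lemma vand_ne_zero {e : ℕ} (he : 2 ≤ e) (r : ℕ) : vand e r ≠ 0 := by
  unfold vand
  rw [Matrix.det_vandermonde_ne_zero_iff]
  intro i j hij
  have h1 : e ^ (e ^ (i : ℕ)) = e ^ (e ^ (j : ℕ)) := by
    have : ((e : ℤ) ^ (e ^ (i : ℕ))) = (e : ℤ) ^ (e ^ (j : ℕ)) := hij
    exact_mod_cast this
  have h2 := Nat.pow_right_injective he h1
  have h3 := Nat.pow_right_injective he h2
  exact Fin.ext h3

/-- A monic integer polynomial of degree `r` whose values at `e ^ (e ^ k)`, `k ≤ r`, are all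
divisible by `m` forces `m` to divide the Vandermonde number. -/
lemma dvd_vand {e r : ℕ} {p : ℤ[X]} (hp : p.Monic) (hd : p.natDegree = r) (m : ℤ)
    (h : ∀ k : Fin (r + 1), m ∣ p.eval ((e : ℤ) ^ (e ^ (k : ℕ)))) : m ∣ vand e r := by
  set V := Matrix.vandermonde (fun k : Fin (r + 1) => (e : ℤ) ^ (e ^ (k : ℕ))) with hV
  have h1 : ∀ k : Fin (r + 1), V.mulVec (fun i => p.coeff i) k
      = p.eval ((e : ℤ) ^ (e ^ (k : ℕ))) := by
    intro k
    rw [Polynomial.eval_eq_sum_range, hd, ← Fin.sum_univ_eq_sum_range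
      (fun i => p.coeff i * ((e : ℤ) ^ (e ^ (k : ℕ))) ^ i)]
    simp only [Matrix.mulVec, dotProduct, hV, Matrix.vandermonde_apply]
    exact Finset.sum_congr rfl fun i _ => mul_comm _ _
  have h2 : V.adjugate.mulVec (V.mulVec (fun i => p.coeff i)) (Fin.last r) = vand e r := by
    rw [Matrix.mulVec_mulVec, Matrix.adjugate_mul, Matrix.smul_mulVec, Matrix.one_mulVec]
    have : p.coeff r = 1 := by rw [← hd]; exact hp
    simp [vand, hV, this]
  rw [← h2, Matrix.mulVec]
  refine Finset.dvd_sum fun k _ => Dvd.dvd.mul_left ?_ _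
  show m ∣ V.mulVec (fun i => p.coeff i) k
  rw [h1 k]
  exact h k

/-- In a group in which every element is conjugate to its `e`-th power, the elements of an abelian normal
subgroup generated by `r` elements have order dividing the Vandermonde number. -/
lemma orderOf_dvd_vand {G : Type} [Group G] {e : ℕ} (h3 : ∀ x : G, IsConj x (x ^ e))
    (A : Subgroup G) (hAn : A.Normal) (hA : ∀ a ∈ A, ∀ b ∈ A, a * b = b * a) (r : ℕ)
    (b : Fin r → G) (hb : closure (Set.range b) = A) (a : G) (ha : a ∈ A) :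
    (orderOf a : ℤ) ∣ vand e r := by
  classical
  let _ : CommGroup A := { (inferInstance : Group A) with
    mul_comm := fun x y => Subtype.ext (hA x x.2 y y.2) }
  obtain ⟨g, hg⟩ := isConj_iff.mp (h3 a)
  obtain ⟨h, hh⟩ := isConj_iff.mp (h3 g)
  -- the conjugation endomorphism
  let φ : A →* A :=
    { toFun := fun x => ⟨g * x * g⁻¹, hAn.conj_mem x x.2 g⟩
      map_one' := by ext; simp
      map_mul' := fun x y => by ext; simp }
  let f : Module.End ℤ (Additive A) := (MonoidHom.toAdditive φ).toIntLinearMap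
  have hbA : ∀ i, b i ∈ A := fun i => by
    rw [← hb]; exact subset_closure ⟨i, rfl⟩
  let b' : Fin r → Additive A := fun i => Additive.ofMul ⟨b i, hbA i⟩
  have hcl : closure (Set.range (fun i => (⟨b i, hbA i⟩ : A))) = ⊤ := by
    apply Subgroup.map_injective A.subtype_injective
    rw [MonoidHom.map_closure, ← Set.range_comp, ← MonoidHom.range_eq_map,
      Subgroup.range_subtype]
    exact hb
  have hb' : Submodule.span ℤ (Set.range b') = ⊤ := by
    rw [eq_top_iff]
    rintro x -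
    have hy : x.toMul ∈ closure (Set.range (fun i => (⟨b i, hbA i⟩ : A))) := by
      rw [hcl]; trivial
    have key : ∀ y ∈ closure (Set.range (fun i => (⟨b i, hbA i⟩ : A))),
        Additive.ofMul y ∈ Submodule.span ℤ (Set.range b') := by
      intro y hy
      induction hy using closure_induction with
      | mem y hy =>
        obtain ⟨i, rfl⟩ := hy
        exact Submodule.subset_span ⟨i, rfl⟩
      | one => exact Submodule.zero_mem _
      | mul y z _ _ hy hz => exact Submodule.add_mem _ hy hz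
      | inv y _ hy => exact Submodule.neg_mem _ hy
    exact key _ hy
  obtain ⟨p, hpm, hpd, hp0⟩ := exists_poly b' hb' f
  refine dvd_vand hpm hpd _ fun k => ?_
  -- powers of g
  have hgk : ∀ k : ℕ, h ^ k * g * (h ^ k)⁻¹ = g ^ (e ^ k) := by
    intro k
    induction k with
    | zero => simp
    | succ n ih =>
      have : h ^ (n + 1) * g * (h ^ (n + 1))⁻¹ = h * (h ^ n * g * (h ^ n)⁻¹) * h⁻¹ := by
        rw [pow_succ']; group
      rw [this, ih, ← conj_pow, hh, ← pow_mul, pow_succ']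
  have hga : ∀ k : ℕ, g ^ k * a * (g ^ k)⁻¹ = a ^ (e ^ k) := by
    intro k
    induction k with
    | zero => simp
    | succ n ih =>
      have : g ^ (n + 1) * a * (g ^ (n + 1))⁻¹ = g * (g ^ n * a * (g ^ n)⁻¹) * g⁻¹ := by
        rw [pow_succ']; group
      rw [this, ih, ← conj_pow, hg, ← pow_mul, pow_succ']
  -- the element on which g acts as the power e ^ (e ^ k)
  set c : G := (h ^ (k : ℕ))⁻¹ * a * h ^ (k : ℕ) with hc
  have hcA : c ∈ A := by
    have := hAn.conj_mem a ha (h ^ (k : ℕ))⁻¹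
    simpa [hc] using this
  have hco : orderOf c = orderOf a := by
    refine SemiconjBy.orderOf_eq (h ^ (k : ℕ)) ?_
    show h ^ (k : ℕ) * c = a * h ^ (k : ℕ)
    rw [hc]; group
  have hgc : g * c * g⁻¹ = c ^ (e ^ (e ^ (k : ℕ))) := by
    have e1 : g * (h ^ (k : ℕ))⁻¹ = (h ^ (k : ℕ))⁻¹ * g ^ (e ^ (k : ℕ)) := by
      rw [← hgk]; group
    have e2 : g * c * g⁻¹ =
        (h ^ (k : ℕ))⁻¹ * (g ^ (e ^ (k : ℕ)) * a * (g ^ (e ^ (k : ℕ)))⁻¹) * h ^ (k : ℕ) := by
      rw [← hgk, hc]; group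
    rw [e2, hga, hc]
    have := conj_pow (i := e ^ e ^ (k : ℕ)) (a := (h ^ (k : ℕ))⁻¹) (b := a)
    rw [inv_inv] at this
    rw [this]
  have hfc : f (Additive.ofMul ⟨c, hcA⟩)
      = ((e : ℤ) ^ (e ^ (k : ℕ))) • (Additive.ofMul (⟨c, hcA⟩ : A)) := by
    have e0 : (e : ℤ) ^ (e ^ (k : ℕ)) = ((e ^ (e ^ (k : ℕ)) : ℕ) : ℤ) := by push_cast; rfl
    rw [e0, natCast_zsmul, ← ofMul_pow]
    show Additive.ofMul (φ ⟨c, hcA⟩) = _
    congr 1
    exact Subtype.ext hgc
  have h0 := Module.End.aeval_apply_of_mem_apply_eq_smul (p := p) hfc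
  rw [hp0, LinearMap.zero_apply, ← ofMul_zpow] at h0
  have h1 : (⟨c, hcA⟩ : A) ^ (p.eval ((e : ℤ) ^ (e ^ (k : ℕ)))) = 1 :=
    (Additive.ofMul.injective h0).symm
  rw [← hco, orderOf_dvd_iff_zpow_eq_one]
  simpa using congrArg Subtype.val h1

/-- The order of an abelian normal subgroup generated by `r` elements. -/
lemma card_abelian_le {G : Type} [Group G] [Finite G] {e : ℕ} (he : 2 ≤ e)
    (h3 : ∀ x : G, IsConj x (x ^ e))
    (A : Subgroup G) (hAn : A.Normal) (hA : ∀ a ∈ A, ∀ b ∈ A, a * b = b * a) (r : ℕ)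
    (b : Fin r → G) (hb : closure (Set.range b) = A) :
    Nat.card A ≤ (vand e r).natAbs ^ r := by
  classical
  let _ : CommGroup A := { (inferInstance : Group A) with
    mul_comm := fun x y => Subtype.ext (hA x x.2 y y.2) }
  have hbA : ∀ i, b i ∈ A := fun i => by
    rw [← hb]; exact subset_closure ⟨i, rfl⟩
  have hcl : closure (Set.range (fun i => (⟨b i, hbA i⟩ : A))) = ⊤ := by
    apply Subgroup.map_injective A.subtype_injective
    rw [MonoidHom.map_closure, ← Set.range_comp, ← MonoidHom.range_eq_map,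
      Subgroup.range_subtype]
    exact hb
  have hpos : 0 < (vand e r).natAbs := Int.natAbs_pos.mpr (vand_ne_zero he r)
  have hexp : ∀ a : A, a ^ (vand e r).natAbs = 1 := by
    intro a
    have h1 := orderOf_dvd_vand h3 A hAn hA r b hb a a.2
    have h2 : orderOf (a : G) ∣ (vand e r).natAbs := Int.natCast_dvd.mp h1
    rw [Subgroup.orderOf_coe] at h2
    exact orderOf_dvd_iff_pow_eq_one.mp h2
  have hdvd := card_dvd_exponent_pow_rank' A hexp
  refine (Nat.le_of_dvd (Nat.pos_of_ne_zero (by positivity)) hdvd).trans ?_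
  refine Nat.pow_le_pow_right hpos ?_
  have hle : Group.rank A ≤ (Finset.univ.image (fun i => (⟨b i, hbA i⟩ : A))).card :=
    Group.rank_le (by simpa using hcl)
  exact hle.trans (Finset.card_image_le.trans (by simp))

/-- The bound. -/
theorem card_le {G : Type} [Group G] [Finite G] (hp : IsPGroup 2 G)
    {e : ℕ} (he : 2 ≤ e) (h3 : ∀ x : G, IsConj x (x ^ e)) (r : ℕ) (A : Subgroup G) (hAn : A.Normal)
    (hA : ∀ a ∈ A, ∀ b ∈ A, a * b = b * a) (hAc : ∀ x : G, (∀ a ∈ A, x * a = a * x) → x ∈ A)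
    (hr : Nat.card {a : G // a ∈ A ∧ a ^ 2 = 1} ≤ r) :
    Nat.card G ≤ ((vand e r).natAbs ^ r) * ((vand e r).natAbs ^ r) ^ ((vand e r).natAbs ^ r) := by
  classical
  obtain ⟨b, hb⟩ := gen_abelian hp A hA r hr
  have hcA := card_abelian_le he h3 A hAn hA r b hb
  let φ : G →* MulAut A := MulAut.conjNormal
  have hker : Nat.card φ.ker ≤ Nat.card A := by
    refine Nat.card_mono (Set.toFinite _) ?_
    intro x hx
    refine hAc x fun a ha => ?_
    have h1 : φ x = 1 := hx
    have h2 := congrArg Subtype.val (DFunLike.congr_fun h1 ⟨a, ha⟩)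
    rw [MulAut.conjNormal_apply, MulAut.one_apply, mul_inv_eq_iff_eq_mul] at h2
    exact h2
  have hrange : Nat.card φ.range ≤ (Nat.card A) ^ (Nat.card A) := by
    refine (Nat.card_le_card_of_injective (fun x : φ.range => ((x : MulAut A) : A → A)) ?_).trans
      (le_of_eq Nat.card_fun)
    intro x y hxy
    exact Subtype.ext (DFunLike.coe_injective hxy)
  have h1 : Nat.card G = Nat.card φ.ker * Nat.card φ.range := by
    rw [← Subgroup.index_ker, Subgroup.card_mul_index]
  rw [h1]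
  have hA1 : 0 < Nat.card A := Nat.card_pos
  refine Nat.mul_le_mul (hker.trans hcA) (hrange.trans ?_)
  exact (Nat.pow_le_pow_left hcA _).trans
    (Nat.pow_le_pow_right (hA1.trans_le hcA) hcA)

/-- The bound in terms of `|X|` and the number of elements of order at most 2 of `A` centralized by
`X`. -/
theorem card_le' {G : Type} [Group G] [Finite G] (hp : IsPGroup 2 G)
    {e : ℕ} (he : 2 ≤ e) (h3 : ∀ x : G, IsConj x (x ^ e)) (A X : Subgroup G) (hAn : A.Normal)
    (hA : ∀ a ∈ A, ∀ b ∈ A, a * b = b * a) (hAc : ∀ x : G, (∀ a ∈ A, x * a = a * x) → x ∈ A)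
    (m n : ℕ) (hm : Nat.card X ≤ m)
    (hn : Nat.card {a : G // a ∈ A ∧ a ^ 2 = 1 ∧ ∀ x ∈ X, x * a = a * x} ≤ n) :
    Nat.card G ≤ ((vand e (n ^ m)).natAbs ^ (n ^ m)) *
      ((vand e (n ^ m)).natAbs ^ (n ^ m)) ^ ((vand e (n ^ m)).natAbs ^ (n ^ m)) := by
  classical
  refine card_le hp he h3 (n ^ m) A hAn hA hAc ?_
  let V : Subgroup G :=
    { carrier := {a | a ∈ A ∧ a ^ 2 = 1}
      one_mem' := ⟨one_mem _, one_pow _⟩
      mul_mem' := by
        rintro a b ⟨ha, ha2⟩ ⟨hb, hb2⟩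
        refine ⟨mul_mem ha hb, ?_⟩
        rw [(show Commute a b from hA a ha b hb).mul_pow, ha2, hb2, one_mul]
      inv_mem' := by
        rintro a ⟨ha, ha2⟩
        exact ⟨inv_mem ha, by rw [inv_pow, ha2, inv_one]⟩ }
  have hVn : V.Normal := by
    constructor
    rintro a ⟨ha, ha2⟩ g
    refine ⟨hAn.conj_mem a ha g, ?_⟩
    rw [conj_pow, ha2, mul_one, mul_inv_cancel]
  have h := card_elem hp X V hVn (fun a ha b hb => hA a ha.1 b hb.1) (fun a ha => ha.2)
  have h1 : Nat.card {a : G // a ∈ V ∧ ∀ x ∈ X, x * a = a * x} ≤ n := by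
    refine (Nat.card_le_card_of_injective
      (fun t : {a : G // a ∈ V ∧ ∀ x ∈ X, x * a = a * x} =>
        (⟨t.1, t.2.1.1, t.2.1.2, t.2.2⟩ :
          {a : G // a ∈ A ∧ a ^ 2 = 1 ∧ ∀ x ∈ X, x * a = a * x})) ?_).trans hn
    intro x y hxy
    exact Subtype.ext (congrArg
      (fun t : {a : G // a ∈ A ∧ a ^ 2 = 1 ∧ ∀ x ∈ X, x * a = a * x} => t.1) hxy)
  have h2 : 0 < n := by
    refine lt_of_lt_of_le ?_ h1
    have : Nonempty {a : G // a ∈ V ∧ ∀ x ∈ X, x * a = a * x} :=
      ⟨⟨1, one_mem _, fun x _ => by rw [mul_one, one_mul]⟩⟩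
    exact Nat.card_pos
  have h3 : Nat.card {a : G // a ∈ A ∧ a ^ 2 = 1} = Nat.card V := rfl
  rw [h3]
  exact h.trans ((Nat.pow_le_pow_left h1 _).trans (Nat.pow_le_pow_right h2 hm))

end Pool.Agent.H64.RE
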