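import Pool.Agent.H64.RE.ExpB
import Pool.Agent.H30.PI.Law

set_option autoImplicit false

/-! # The exponent of groups with `x ~ x ^ e`: a subnormal series, factors with a law (helper64) -/

namespace Pool.Agent.H64.RE

open Subgroup

universe u v

/-- Groups with `x ~ x ^ e` satisfying a law which does not hold in all metabelian groups. -/
def SLaw : Prop := ∀ e : ℕ, 2 ≤ e → ∀ w : FreeGroup ℕ, w ∉ derivedSeries (FreeGroup ℕ) 2 →
  ∃ F : ℕ, 0 < F ∧ ∀ (G : Type v) [Group G], (∀ x : G, IsConj x (x ^ e)) →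
    (∀ f : FreeGroup ℕ →* G, f w = 1) → ∀ x : G, x ^ F = 1

/-- The condition on the factor `K / H`, `H` normal in `K`. -/
def FSubL (G : Type v) [Group G] (r m : ℕ) (W : Finset (FreeGroup ℕ)) (H K : Subgroup G) : Prop :=
  FSubE G r m H K ∨
    ((H.subgroupOf K).Normal ∧ ∃ w ∈ W, ∀ f : FreeGroup ℕ →* K, ((f w : K) : G) ∈ H)

/-- The condition passes to a subgroup containing `K`. -/
theorem fsubL_sub {G : Type v} [Group G] (r m : ℕ) (W : Finset (FreeGroup ℕ))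
    (H K N : Subgroup G) (hHK : H ≤ K) (hKN : K ≤ N)
    (h : FSubL G r m W H K) : FSubL N r m W (H.subgroupOf N) (K.subgroupOf N) := by
  rcases h with h | ⟨hn, w, hw, h⟩
  · exact Or.inl (fsubE_sub r m H K N hHK hKN h)
  · refine Or.inr ⟨?_, w, hw, fun f => ?_⟩
    · constructor
      rintro ⟨⟨x, hxN⟩, hxK⟩ hx ⟨⟨g, hgN⟩, hgK⟩
      exact hn.conj_mem ⟨x, hxK⟩ hx ⟨g, hgK⟩
    · let ι : K.subgroupOf N →* K := (Subgroup.subgroupOfEquivOfLe hKN).toMonoidHom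
      exact h (ι.comp f)

/-- The exponent of a single factor. -/
theorem fac_expL (hL : SLaw.{v}) (e r m : ℕ) (he : 2 ≤ e) (W : Finset (FreeGroup ℕ))
    (hW : ∀ w ∈ W, w ∉ derivedSeries (FreeGroup ℕ) 2) :
    ∃ f : ℕ, 0 < f ∧ ∀ (Q : Type v) [Group Q],
    (∀ x : Q, IsConj x (x ^ e)) → (FacE r m Q ∨ ∃ w ∈ W, ∀ f : FreeGroup ℕ →* Q, f w = 1) →
      ∀ x : Q, x ^ f = 1 := by
  classical
  obtain ⟨f, hf0, hf⟩ := fac_exp.{v} e r m he
  choose F hF0 hF using fun w : {w // w ∈ W} => hL e he w.1 (hW w.1 w.2)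
  refine ⟨f * ∏ w ∈ W.attach, F w, Nat.mul_pos hf0 (Finset.prod_pos fun w _ => hF0 w), ?_⟩
  intro Q _ h3 hfac x
  rcases hfac with h | ⟨w, hw, h⟩
  · rw [pow_mul, hf Q h3 h x, one_pow]
  · obtain ⟨c, hc⟩ := Finset.dvd_prod_of_mem F (Finset.mem_attach W ⟨w, hw⟩)
    rw [hc, mul_comm, mul_assoc, pow_mul, hF ⟨w, hw⟩ Q h3 h x, one_pow]

/-- The theorem. -/
theorem exp_seriesL (hL : SLaw.{v}) (r m : ℕ) (W : Finset (FreeGroup ℕ))
    (hW : ∀ w ∈ W, w ∉ derivedSeries (FreeGroup ℕ) 2) (k : ℕ) :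
    ∀ e : ℕ, 2 ≤ e → ∃ F : ℕ, 0 < F ∧ ∀ (G : Type v) [Group G],
    (∀ x : G, IsConj x (x ^ e)) → ∀ N : ℕ → Subgroup G, N 0 = ⊥ → N k = ⊤ →
    (∀ i < k, N i ≤ N (i + 1) ∧ FSubL G r m W (N i) (N (i + 1))) → ∀ x : G, x ^ F = 1 := by
  induction k with
  | zero =>
    intro e _
    refine ⟨1, Nat.one_pos, ?_⟩
    intro G _ _ N h0 h1 _ x
    rw [h0] at h1
    have h2 : x ∈ (⊥ : Subgroup G) := by rw [h1]; exact mem_top x
    rw [pow_one]
    exact Subgroup.mem_bot.1 h2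
  | succ k ih =>
    intro e he
    obtain ⟨f, hf0, hf⟩ := fac_expL hL e r m he W hW
    obtain ⟨F, hF0, hF⟩ := ih (e ^ f) (by
      calc 2 ≤ e ^ 1 := by rw [pow_one]; exact he
        _ ≤ e ^ f := Nat.pow_le_pow_right (by omega) hf0)
    refine ⟨f * F, Nat.mul_pos hf0 hF0, ?_⟩
    intro G _ h3 N hN0 hNk hN
    classical
    obtain ⟨-, hfac⟩ := hN k (Nat.lt_succ_self k)
    rw [hNk] at hfac
    have hnorm : ((N k).subgroupOf ⊤).Normal := by
      rcases hfac with h | h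
      · exact h.1
      · exact h.1
    have hNn : (N k).Normal := by
      constructor
      intro x hx g
      exact hnorm.conj_mem ⟨x, mem_top x⟩ hx ⟨g, mem_top g⟩
    have hle : ∀ i j, i ≤ j → j ≤ k → N i ≤ N j := by
      intro i j hij
      induction j, hij using Nat.le_induction with
      | base => intro _; exact le_rfl
      | succ j hij ihj =>
        intro hj
        exact (ihj (by omega)).trans (hN j (by omega)).1
    let π := QuotientGroup.mk' (N k)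
    have hπ : Function.Surjective π := QuotientGroup.mk'_surjective (N k)
    have hfac' : FacE r m (G ⧸ N k) ∨ ∃ w ∈ W, ∀ f : FreeGroup ℕ →* (G ⧸ N k), f w = 1 := by
      rcases hfac with h | ⟨-, w, hw, h⟩
      · exact Or.inl (facE_quot r m (N k) h.2)
      · refine Or.inr ⟨w, hw, fun f => ?_⟩
        choose z hz using fun i : ℕ => hπ (f (FreeGroup.of i))
        let g : FreeGroup ℕ →* (⊤ : Subgroup G) :=
          FreeGroup.lift fun i => (⟨z i, mem_top _⟩ : (⊤ : Subgroup G))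
        have h1 : (π.comp (⊤ : Subgroup G).subtype).comp g = f := by
          ext i
          show π ((g (FreeGroup.of i) : (⊤ : Subgroup G)) : G) = f (FreeGroup.of i)
          rw [FreeGroup.lift_apply_of]
          exact hz i
        have h2 : π ((g w : (⊤ : Subgroup G)) : G) = f w := by
          rw [← h1]; rfl
        rw [← h2]
        exact (QuotientGroup.eq_one_iff _).2 (h g)
    have hpow : ∀ x : G, x ^ f ∈ N k := by
      intro x
      have h1 := hf (G ⧸ N k) (fun y => by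
        obtain ⟨y, rfl⟩ := hπ y
        rw [← map_pow]
        exact MonoidHom.map_isConj π (h3 y)) hfac' (π x)
      rw [← map_pow] at h1
      exact (QuotientGroup.eq_one_iff _).1 h1
    intro x
    have h4 := hF (N k) ?_ (fun i => (N i).subgroupOf (N k)) ?_ ?_ ?_ ⟨x ^ f, hpow x⟩
    · have h5 := congrArg Subtype.val h4
      rw [pow_mul]
      exact h5
    · intro y
      obtain ⟨t, ht⟩ := isConj_iff.1 (h3 (y : G))
      refine isConj_iff.2 ⟨⟨t ^ f, hpow t⟩, Subtype.ext ?_⟩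
      show t ^ f * (y : G) * (t ^ f)⁻¹ = (y : G) ^ (e ^ f)
      exact conj_itU ht _
    · show (N 0).subgroupOf (N k) = ⊥
      rw [hN0, Subgroup.bot_subgroupOf]
    · show (N k).subgroupOf (N k) = ⊤
      rw [Subgroup.subgroupOf_self]
    · intro i hi
      obtain ⟨h1, h2⟩ := hN i (by omega)
      exact ⟨Subgroup.comap_mono h1, fsubL_sub r m W _ _ _ h1 (hle _ _ (by omega) le_rfl) h2⟩

/-- The law lemma (helper30). -/
theorem sLaw : SLaw.{v} := fun e he w hw => Pool.Agent.H30.PI.law_exp.{v} e he w hw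

/-- The final form. -/
theorem exponentL (e r n m k : ℕ) (he : 2 ≤ e) (W : Finset (FreeGroup ℕ))
    (hW : ∀ w ∈ W, w ∉ derivedSeries (FreeGroup ℕ) 2) :
    ∃ F : ℕ, 0 < F ∧ ∀ (G : Type v) [Group G], (∀ x : G, IsConj x (x ^ e)) →
      ∀ N : ℕ → Subgroup G, N 0 = ⊥ → N k = ⊤ →
      (∀ i < k, N i ≤ N (i + 1) ∧ ((N i).subgroupOf (N (i + 1))).Normal ∧
        ((∃ w ∈ W, ∀ f : FreeGroup ℕ →* N (i + 1), ((f w : N (i + 1)) : G) ∈ N i) ∨
          ((N i).relIndex (N (i + 1)) ≠ 0 ∧ (∀ x ∈ N (i + 1), ∃ l : ℕ, x ^ (2 ^ l) ∈ N i) ∧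
            ∀ L : Subgroup G, N i ≤ L → L ≤ N (i + 1) →
              ∃ s : Finset G, s.card ≤ r ∧ L = N i ⊔ Subgroup.closure (s : Set G)) ∨
          (∃ (R M : Type u) (_ : CommRing R) (_ : AddCommGroup M) (_ : Module R M) (v : Fin n → M)
            (φ : N (i + 1) →* Module.End R M), Submodule.span R (Set.range v) = ⊤ ∧
              ∀ x, φ x = 1 ↔ (x : G) ∈ N i) ∨
          (∃ (A : Type u) (_ : Ring A) (φ : N (i + 1) →* A) (j : ℕ) (a : Equiv.Perm (Fin j) → ℤ),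
            j ≤ m ∧ a 1 = 1 ∧
            (∀ y : Fin j → N (i + 1), ∑ σ, a σ • φ (List.ofFn fun l => y (σ l)).prod = 0) ∧
            ∀ x, φ x = 1 ↔ (x : G) ∈ N i))) →
      ∀ x : G, x ^ F = 1 := by
  obtain ⟨F, hF0, hF⟩ := exp_seriesL sLaw r (max m (n * n + 1)) W hW k e he
  refine ⟨F, hF0, fun G _ h3 N h0 hk hN => hF G h3 N h0 hk fun i hi => ?_⟩
  obtain ⟨h1, h2, h4⟩ := hN i hi
  refine ⟨h1, ?_⟩
  rcases h4 with h | h | ⟨R, M, _, _, _, v, φ, hv, hφ⟩ | ⟨A, hA, φ, j, a, hj, ha1, ha2, hφ⟩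
  · exact Or.inr ⟨h2, h⟩
  · exact Or.inl ⟨h2, Or.inr (Or.inl h)⟩
  · obtain ⟨B, hB, ψ, hψ1, hψ2⟩ := small_ringU φ (n * n + 1) (iden_end n v hv φ)
    exact Or.inl ⟨h2, Or.inr (Or.inr ⟨n * n + 1, le_max_right _ _, B, hB, ψ, hψ1,
      fun x => (hψ2 x).trans (hφ x)⟩)⟩
  · obtain ⟨B, hB, ψ, hψ1, hψ2⟩ := small_ringU φ j ⟨a, ha1, ha2⟩
    exact Or.inl ⟨h2, Or.inr (Or.inr ⟨j, hj.trans (le_max_left _ _), B, hB, ψ, hψ1,
      fun x => (hψ2 x).trans (hφ x)⟩)⟩

end Pool.Agent.H64.RE
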