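import Pool.Agent.H30.PI.Spec

set_option autoImplicit false

/-! # The standard identity for endomorphisms of finitely generated modules (helper64) -/

namespace Pool.Agent.H64.RE

open Pool.Agent.H30.PI (Iden)

universe u v w

/-- The standard identity of degree `n * n + 1` for matrices. -/
theorem std_matrix {R : Type u} [CommRing R] (n : ℕ)
    (Y : Fin (n * n + 1) → Matrix (Fin n) (Fin n) R) :
    ∑ σ : Equiv.Perm (Fin (n * n + 1)), ((Equiv.Perm.sign σ : ℤˣ) : ℤ) •
      (List.ofFn fun i => Y (σ i)).prod = 0 := by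
  classical
  let f : AlternatingMap R (Matrix (Fin n) (Fin n) R) (Matrix (Fin n) (Fin n) R)
      (Fin (n * n + 1)) :=
    MultilinearMap.alternatization
      (MultilinearMap.mkPiAlgebraFin R (n * n + 1) (Matrix (Fin n) (Fin n) R))
  have hf : f = 0 := by
    refine Module.Basis.ext_alternating (Matrix.stdBasis R (Fin n) (Fin n)) ?_
    intro v hv
    exfalso
    have h1 := Fintype.card_le_of_injective v hv
    rw [Fintype.card_fin, Fintype.card_prod, Fintype.card_fin] at h1
    omega
  have h2 : f Y = 0 := by rw [hf]; rfl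
  rw [MultilinearMap.alternatization_apply] at h2
  rw [← h2]
  refine Finset.sum_congr rfl fun σ _ => ?_
  rw [MultilinearMap.domDomCongr_apply, MultilinearMap.mkPiAlgebraFin_apply]
  rfl

/-- Groups acting on a module with `n` generators over a commutative ring. -/
theorem iden_end {R : Type u} {M : Type v} {G : Type w} [CommRing R] [AddCommGroup M] [Module R M]
    [Group G] (n : ℕ) (v : Fin n → M) (hv : Submodule.span R (Set.range v) = ⊤)
    (φ : G →* Module.End R M) :
    ∃ a : Equiv.Perm (Fin (n * n + 1)) → ℤ, a 1 = 1 ∧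
      ∀ y : Fin (n * n + 1) → G, ∑ σ, a σ • φ (List.ofFn fun i => y (σ i)).prod = 0 := by
  classical
  refine ⟨fun σ => ((Equiv.Perm.sign σ : ℤˣ) : ℤ), by simp, fun y => ?_⟩
  let j : (Fin n → R) →ₗ[R] M := Fintype.linearCombination R v
  have hj : Function.Surjective j := by
    rw [← LinearMap.range_eq_top, Fintype.range_linearCombination, hv]
  have hlift : ∀ a : Module.End R M, ∃ A : Matrix (Fin n) (Fin n) R,
      ∀ w, j (Matrix.toLin' A w) = a (j w) := by
    intro a
    obtain ⟨b, hb⟩ := Module.projective_lifting_property j (a ∘ₗ j) hj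
    refine ⟨LinearMap.toMatrix' b, fun w => ?_⟩
    rw [Matrix.toLin'_toMatrix']
    exact LinearMap.congr_fun hb w
  choose A hA using fun i => hlift (φ (y i))
  have hlist : ∀ (l : List (Fin (n * n + 1))) (w : Fin n → R),
      j (Matrix.toLin' ((l.map A).prod) w) = φ ((l.map y).prod) (j w) := by
    intro l
    induction l with
    | nil =>
      intro w
      simp
    | cons i l ih =>
      intro w
      rw [List.map_cons, List.map_cons, List.prod_cons, List.prod_cons, Matrix.toLin'_mul_apply,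
        hA, ih, map_mul]
      rfl
  refine LinearMap.ext fun z => ?_
  obtain ⟨w, rfl⟩ := hj z
  have h1 := std_matrix n A
  have h2 : ∀ σ : Equiv.Perm (Fin (n * n + 1)),
      (((Equiv.Perm.sign σ : ℤˣ) : ℤ) • φ (List.ofFn fun i => y (σ i)).prod) (j w) =
        j (Matrix.toLin' (((Equiv.Perm.sign σ : ℤˣ) : ℤ) • (List.ofFn fun i => A (σ i)).prod) w) := by
    intro σ
    have e1 : (List.ofFn fun i => y (σ i)) = (List.ofFn σ).map y := by
      rw [List.map_ofFn]; rfl
    have e2 : (List.ofFn fun i => A (σ i)) = (List.ofFn σ).map A := by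
      rw [List.map_ofFn]; rfl
    rw [e1, e2, map_zsmul, LinearMap.smul_apply, LinearMap.smul_apply, map_zsmul, hlist]
  rw [LinearMap.sum_apply, Finset.sum_congr rfl fun σ _ => h2 σ, ← map_sum, ← LinearMap.sum_apply,
    ← map_sum, h1]
  simp

/-- A ring of any universe may be replaced by a quotient of the integral group ring. -/
theorem small_ring {G : Type} [Group G] {B : Type u} [Ring B] (φ : G →* B) (m : ℕ)
    (hid : ∃ a : Equiv.Perm (Fin m) → ℤ, a 1 = 1 ∧
      ∀ y : Fin m → G, ∑ σ, a σ • φ (List.ofFn fun i => y (σ i)).prod = 0) :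
    ∃ (B' : Type) (_ : Ring B') (φ' : G →* B'), Iden m φ' ∧ ∀ x, φ' x = 1 ↔ φ x = 1 := by
  let F : MonoidAlgebra ℤ G →+* B :=
    (MonoidAlgebra.lift ℤ B G φ : MonoidAlgebra ℤ G →ₐ[ℤ] B).toRingHom
  have hF : ∀ g : G, F (MonoidAlgebra.of ℤ G g) = φ g := by
    intro g
    show (MonoidAlgebra.lift ℤ B G φ) (MonoidAlgebra.of ℤ G g) = φ g
    simp
  let q : MonoidAlgebra ℤ G →+* (MonoidAlgebra ℤ G ⧸ RingHom.ker F) := Ideal.Quotient.mk _
  have hq : ∀ z : MonoidAlgebra ℤ G, q z = 0 ↔ F z = 0 := by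
    intro z
    rw [Ideal.Quotient.eq_zero_iff_mem, RingHom.mem_ker]
  let φ' : G →* (MonoidAlgebra ℤ G ⧸ RingHom.ker F) :=
    (q : MonoidAlgebra ℤ G →* (MonoidAlgebra ℤ G ⧸ RingHom.ker F)).comp (MonoidAlgebra.of ℤ G)
  have hφ' : ∀ x, φ' x = q (MonoidAlgebra.of ℤ G x) := fun x => rfl
  refine ⟨MonoidAlgebra ℤ G ⧸ RingHom.ker F, inferInstance, φ', ?_, ?_⟩
  · obtain ⟨a, ha1, ha2⟩ := hid
    refine ⟨a, ha1, fun y => ?_⟩
    have h1 : ∀ σ : Equiv.Perm (Fin m), a σ • φ' (List.ofFn fun i => y (σ i)).prod =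
        q (a σ • MonoidAlgebra.of ℤ G (List.ofFn fun i => y (σ i)).prod) := by
      intro σ
      rw [hφ', map_zsmul]
    rw [Finset.sum_congr rfl fun σ _ => h1 σ, ← map_sum, hq, map_sum]
    rw [← ha2 y]
    refine Finset.sum_congr rfl fun σ _ => ?_
    rw [map_zsmul, hF]
  · intro x
    have h1 : φ' x = 1 ↔ q (MonoidAlgebra.of ℤ G x - 1) = 0 := by
      rw [map_sub, map_one, sub_eq_zero, hφ']
    rw [h1, hq, map_sub, map_one, hF, sub_eq_zero]

end Pool.Agent.H64.RE
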