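import Pool.Agent.H64.RE.Series
import Pool.Agent.H64.RE.Std
import Pool.Agent.H30.PI.AsmE
import Pool.Agent.H30.PI.Val
import Pool.Agent.H30.PI.KonX
import Pool.Agent.H30.PI.Per
import Pool.Agent.H30.PI.Rec
import Pool.Agent.H30.PI.PwrX
import Pool.Agent.H30.PI.Shir
import Pool.Agent.H30.PI.Prm
import Pool.Agent.H30.PI.ExsE
import Pool.Agent.H30.PI.SpanE
import Pool.Agent.H30.PI.Two
import Pool.Agent.H30.PI.Odd
import Pool.Agent.H30.PI.Mx
import Pool.Agent.H30.PI.PrimeE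
import Pool.Agent.H30.PI.Sub
import Pool.Agent.H30.PI.Res
import Pool.Agent.H30.PI.Quo

set_option autoImplicit false

/-! # Rational 2-groups with a normal series: the final form (helper64) -/

namespace Pool.Agent.H64.RE

open Subgroup
open Pool.Agent.H30.PI

universe u

theorem finE : SFinE :=
  sfinE (sspanE sval (sshir skonX sper (srec sval) spowX) (sperm sval) sexE)
    (sprimeE stwo sodd smax) ssub sres squo

/-- The final form. -/
theorem fin_of (hF : SFinE) (d r n m k : ℕ) :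
    ∃ C : ℕ, ∀ (G : Type) [Group G] [Finite G],
      IsPGroup 2 G →
      (∃ s : Finset G, s.card ≤ d ∧ Subgroup.closure (s : Set G) = ⊤) →
      (∀ x : G, IsConj x (x ^ 3)) →
      ∀ N : ℕ → Subgroup G, N 0 = ⊥ → N k = ⊤ →
      (∀ i < k, (N i).Normal ∧ N i ≤ N (i + 1) ∧
        (⁅N (i + 1), N (i + 1)⁆ ≤ N i ∨
          (∀ L : Subgroup G, N i ≤ L → L ≤ N (i + 1) →
            ∃ s : Finset G, s.card ≤ r ∧ L = N i ⊔ Subgroup.closure (s : Set G)) ∨
          (∃ (R M : Type u) (_ : CommRing R) (_ : AddCommGroup M) (_ : Module R M) (v : Fin n → M)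
            (φ : N (i + 1) →* Module.End R M), Submodule.span R (Set.range v) = ⊤ ∧
              ∀ x, φ x = 1 ↔ (x : G) ∈ N i) ∨
          (∃ (A : Type u) (_ : Ring A) (φ : N (i + 1) →* A) (j : ℕ) (a : Equiv.Perm (Fin j) → ℤ),
            j ≤ m ∧ a 1 = 1 ∧
            (∀ y : Fin j → N (i + 1), ∑ σ, a σ • φ (List.ofFn fun l => y (σ l)).prod = 0) ∧
            ∀ x, φ x = 1 ↔ (x : G) ∈ N i))) →
      Nat.card G ≤ C := by
  obtain ⟨C, hC⟩ := series_of hF d r (max m (n * n + 1)) k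
  refine ⟨C, fun G _ _ hp hgen h3 N h0 hk hN => hC G hp hgen h3 ⟨N, h0, hk, fun i hi => ?_⟩⟩
  obtain ⟨h1, h2, h4⟩ := hN i hi
  refine ⟨h1, h2, ?_⟩
  rcases h4 with h | h | ⟨R, M, _, _, _, v, φ, hv, hφ⟩ | ⟨A, hA, φ, j, a, hj, ha1, ha2, hφ⟩
  · exact Or.inl h
  · exact Or.inr (Or.inl h)
  · obtain ⟨B, hB, ψ, hψ1, hψ2⟩ := small_ring φ (n * n + 1) (iden_end n v hv φ)
    exact Or.inr (Or.inr ⟨n * n + 1, le_max_right _ _, B, hB, ψ, hψ1,
      fun x => (hψ2 x).trans (hφ x)⟩)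
  · obtain ⟨B, hB, ψ, hψ1, hψ2⟩ := small_ring φ j ⟨a, ha1, ha2⟩
    exact Or.inr (Or.inr ⟨j, hj.trans (le_max_left _ _), B, hB, ψ, hψ1,
      fun x => (hψ2 x).trans (hφ x)⟩)

end Pool.Agent.H64.RE
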