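import Pool.Agent.H64.RE.Sub
import Pool.Agent.H30.PI.AsmE
import Pool.Agent.H30.PI.Val
import Pool.Agent.H30.PI.KonX
import Pool.Agent.H30.PI.Per
import Pool.Agent.H30.PI.Rec
import Pool.Agent.H30.PI.PwrX
import Pool.Agent.H30.PI.Shir
import Pool.Agent.H30.PI.Prm
import Pool.Agent.H30.PI.ExsE
import Pool.Agent.H30.PI.SpanE
import Pool.Agent.H30.PI.Two
import Pool.Agent.H30.PI.Odd
import Pool.Agent.H30.PI.Mx
import Pool.Agent.H30.PI.PrimeE
import Pool.Agent.H30.PI.Sub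
import Pool.Agent.H30.PI.Res
import Pool.Agent.H30.PI.Quo

set_option autoImplicit false

/-! # Rational 2-groups with a subnormal series: the final form (helper64) -/

namespace Pool.Agent.H64.RE

open Subgroup
open Pool.Agent.H30.PI
open Pool.Agent.H50.RatTwo (fin_family)

universe u

theorem finS : SFinE :=
  sfinE (sspanE sval (sshir skonX sper (srec sval) spowX) (sperm sval) sexE)
    (sprimeE stwo sodd smax) ssub sres squo

/-- The final form. -/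
theorem subnormal (d e r n m k : ℕ) (he : 2 ≤ e) :
    ∃ C : ℕ, ∀ (G : Type) [Group G] [Finite G],
      IsPGroup 2 G →
      (∃ s : Finset G, s.card ≤ d ∧ Subgroup.closure (s : Set G) = ⊤) →
      (∀ x : G, IsConj x (x ^ e)) →
      ∀ N : ℕ → Subgroup G, N 0 = ⊥ → N k = ⊤ →
      (∀ i < k, N i ≤ N (i + 1) ∧ ((N i).subgroupOf (N (i + 1))).Normal ∧
        (⁅N (i + 1), N (i + 1)⁆ ≤ N i ∨
          (∀ L : Subgroup G, N i ≤ L → L ≤ N (i + 1) →
            ∃ s : Finset G, s.card ≤ r ∧ L = N i ⊔ Subgroup.closure (s : Set G)) ∨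
          (∃ (R M : Type u) (_ : CommRing R) (_ : AddCommGroup M) (_ : Module R M) (v : Fin n → M)
            (φ : N (i + 1) →* Module.End R M), Submodule.span R (Set.range v) = ⊤ ∧
              ∀ x, φ x = 1 ↔ (x : G) ∈ N i) ∨
          (∃ (A : Type u) (_ : Ring A) (φ : N (i + 1) →* A) (j : ℕ) (a : Equiv.Perm (Fin j) → ℤ),
            j ≤ m ∧ a 1 = 1 ∧
            (∀ y : Fin j → N (i + 1), ∑ σ, a σ • φ (List.ofFn fun l => y (σ l)).prod = 0) ∧
            ∀ x, φ x = 1 ↔ (x : G) ∈ N i))) →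
      Nat.card G ≤ C := by
  obtain ⟨C, hC⟩ := sub_series finS r (max m (n * n + 1)) k d e he
  refine ⟨C, fun G _ _ hp ⟨s, hsd, hs⟩ h3 N h0 hk hN => hC G hp ?_ h3 N h0 hk fun i hi => ?_⟩
  · obtain ⟨b, hb⟩ := fin_family s d hsd
    exact ⟨b, hb.trans hs⟩
  obtain ⟨h1, h2, h4⟩ := hN i hi
  refine ⟨h1, h2, ?_⟩
  rcases h4 with h | h | ⟨R, M, _, _, _, v, φ, hv, hφ⟩ | ⟨A, hA, φ, j, a, hj, ha1, ha2, hφ⟩
  · exact Or.inl h
  · exact Or.inr (Or.inl h)
  · obtain ⟨B, hB, ψ, hψ1, hψ2⟩ := small_ring φ (n * n + 1) (iden_end n v hv φ)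
    exact Or.inr (Or.inr ⟨n * n + 1, le_max_right _ _, B, hB, ψ, hψ1,
      fun x => (hψ2 x).trans (hφ x)⟩)
  · obtain ⟨B, hB, ψ, hψ1, hψ2⟩ := small_ring φ j ⟨a, ha1, ha2⟩
    exact Or.inr (Or.inr ⟨j, hj.trans (le_max_left _ _), B, hB, ψ, hψ1,
      fun x => (hψ2 x).trans (hφ x)⟩)

end Pool.Agent.H64.RE
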