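import Pool.Agent.H30.PI.SpecE
import Pool.Agent.H50.RatTwo

set_option autoImplicit false

/-! # Rational 2-groups with a normal series whose factors are abelian, of bounded rank or in rings
with a polynomial identity (helper64): the series theorem from the theorem for a single factor -/

namespace Pool.Agent.H64.RE

open Subgroup
open Pool.Agent.H50.RatTwo (fin_family series_bound Good bound)
open Pool.Agent.H30.PI (Iden SFinE)

/-- The condition on the factor `K / H`: it is abelian, or all its subgroups are generated by `r`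
elements, or it embeds into a ring and satisfies an identity of degree at most `m` there. -/
def FGood (G : Type) [Group G] (r m : ℕ) (H K : Subgroup G) : Prop :=
  ⁅K, K⁆ ≤ H ∨
  (∀ L : Subgroup G, H ≤ L → L ≤ K → ∃ s : Finset G, s.card ≤ r ∧ L = H ⊔ closure (s : Set G)) ∨
  ∃ j ≤ m, ∃ (B : Type) (_ : Ring B) (φ : K →* B), Iden j φ ∧ ∀ x : K, φ x = 1 ↔ (x : G) ∈ H

/-- The series theorem. -/
def SSeries : Prop := ∀ d r m k : ℕ, ∃ B : ℕ, ∀ (G : Type) [Group G] [Finite G], IsPGroup 2 G →
  (∃ s : Finset G, s.card ≤ d ∧ closure (s : Set G) = ⊤) → (∀ x : G, IsConj x (x ^ 3)) →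
  (∃ N : ℕ → Subgroup G, N 0 = ⊥ ∧ N k = ⊤ ∧
    ∀ i < k, (N i).Normal ∧ N i ≤ N (i + 1) ∧ FGood G r m (N i) (N (i + 1))) →
  Nat.card G ≤ B

theorem re_good_top {G : Type} [Group G] [Finite G] (T : Subgroup G) (m : ℕ) (hm : T.index ≤ m)
    (L : Subgroup G) (hTL : T ≤ L) :
    ∃ s : Finset G, s.card ≤ m ∧ L = T ⊔ closure (s : Set G) := by
  classical
  have hfin : Fintype (G ⧸ T) := Fintype.ofFinite _
  let f : G ⧸ T → G := fun q => if h : ∃ a ∈ L, (a : G ⧸ T) = q then h.choose else 1
  have hfL : ∀ q, f q ∈ L := by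
    intro q
    by_cases h : ∃ a ∈ L, (a : G ⧸ T) = q
    · have : f q = h.choose := dif_pos h
      rw [this]; exact h.choose_spec.1
    · have : f q = 1 := dif_neg h
      rw [this]; exact one_mem _
  refine ⟨Finset.univ.image f, ?_, ?_⟩
  · refine Finset.card_image_le.trans ?_
    rw [Finset.card_univ, ← Nat.card_eq_fintype_card]
    exact hm
  · apply le_antisymm
    · intro a ha
      have h : ∃ a' ∈ L, (a' : G ⧸ T) = (a : G ⧸ T) := ⟨a, ha, rfl⟩
      have h1 : f (a : G ⧸ T) = h.choose := dif_pos h
      have h2 : (h.choose : G ⧸ T) = (a : G ⧸ T) := h.choose_spec.2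
      rw [← h1] at h2
      have h3 : (f (a : G ⧸ T))⁻¹ * a ∈ T := QuotientGroup.eq.1 h2
      have h4 : a = f (a : G ⧸ T) * ((f (a : G ⧸ T))⁻¹ * a) := by group
      rw [h4]
      refine mul_mem (mem_sup_right (subset_closure ?_)) (mem_sup_left h3)
      rw [Finset.coe_image, Finset.coe_univ, Set.image_univ]
      exact ⟨_, rfl⟩
    · rw [sup_le_iff, closure_le]
      refine ⟨hTL, ?_⟩
      rw [Finset.coe_image, Finset.coe_univ, Set.image_univ]
      rintro _ ⟨q, rfl⟩
      exact hfL q

/-- Conjugation by powers. -/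
theorem re_conj_it {G : Type} [Group G] {x t : G} (h : t * x * t⁻¹ = x ^ 3) (j : ℕ) :
    t ^ j * x * (t ^ j)⁻¹ = x ^ (3 ^ j) := by
  induction j with
  | zero => simp
  | succ n ih =>
    have : t ^ (n + 1) * x * (t ^ (n + 1))⁻¹ = t * (t ^ n * x * (t ^ n)⁻¹) * t⁻¹ := by
      rw [pow_succ']; group
    rw [this, ih, ← conj_pow, h, ← pow_mul, pow_succ']

/-- The factor condition passes to quotients. -/
theorem re_quot {G Q : Type} [Group G] [Group Q] (π : G →* Q) (hπ : Function.Surjective π)
    (r m : ℕ) (H K : Subgroup G) (hHK : H ≤ K) (hH : π.ker ≤ H) (h : FGood G r m H K) :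
    FGood Q r m (H.map π) (K.map π) := by
  classical
  have hc : ∀ L : Subgroup G, π.ker ≤ L → (L.map π).comap π = L := by
    intro L hL
    rw [Subgroup.comap_map_eq]
    exact sup_eq_left.mpr hL
  rcases h with h | h | ⟨j, hj, B, hB, φ, hφ, hker⟩
  · left
    rw [← Subgroup.map_commutator]
    exact Subgroup.map_mono h
  · right; left
    intro L hL1 hL2
    obtain ⟨t, ht, hLt⟩ := h (L.comap π)
      (by rw [← hc H hH]; exact Subgroup.comap_mono hL1)
      (by rw [← hc K (hH.trans hHK)]; exact Subgroup.comap_mono hL2)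
    refine ⟨t.image π, Finset.card_image_le.trans ht, ?_⟩
    rw [Finset.coe_image, ← MonoidHom.map_closure, ← Subgroup.map_sup, ← hLt,
      Subgroup.map_comap_eq_self_of_surjective hπ]
  · right; right
    have hwell : ∀ x y : K, π x = π y → φ x = φ y := by
      intro x y hxy
      have h1 : (x : G)⁻¹ * y ∈ H := by
        apply hH
        rw [MonoidHom.mem_ker, map_mul, map_inv, hxy, inv_mul_cancel]
      have h2 : φ (x⁻¹ * y) = 1 := (hker _).2 h1
      have h3 : y = x * (x⁻¹ * y) := by group
      rw [h3, map_mul, h2, mul_one]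
    have hex : ∀ y : K.map π, ∃ x : K, π x = y := by
      rintro ⟨_, x, hx, rfl⟩
      exact ⟨⟨x, hx⟩, rfl⟩
    choose lft hlft using hex
    let ψ : K.map π →* B :=
      { toFun := fun y => φ (lft y)
        map_one' := by
          rw [hwell (lft 1) 1 (by rw [hlft]; simp), map_one]
        map_mul' := fun y z => by
          rw [← map_mul]
          apply hwell
          rw [hlft, Subgroup.coe_mul, Subgroup.coe_mul, map_mul, hlft, hlft] }
    have hψ : ∀ (y : K.map π) (x : K), π x = y → ψ y = φ x := by
      intro y x hxy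
      exact hwell _ _ (by rw [hlft, hxy])
    refine ⟨j, hj, B, hB, ψ, ?_, ?_⟩
    · obtain ⟨a, ha1, ha2⟩ := hφ
      refine ⟨a, ha1, fun y => ?_⟩
      rw [← ha2 (fun i => lft (y i))]
      refine Finset.sum_congr rfl fun σ _ => ?_
      congr 1
      apply hψ
      have hl : ∀ l : List (Fin j), π (((l.map fun i => lft (y i)).prod : K) : G) =
          (((l.map fun i => y i).prod : K.map π) : Q) := by
        intro l
        induction l with
        | nil => simp
        | cons i l ih =>
          rw [List.map_cons, List.map_cons, List.prod_cons, List.prod_cons, Subgroup.coe_mul,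
            Subgroup.coe_mul, map_mul, ih, hlft]
      have h1 : (List.ofFn fun i => lft (y (σ i))) = ((List.ofFn σ).map fun i => lft (y i)) := by
        rw [List.map_ofFn]; rfl
      have h2 : (List.ofFn fun i => y (σ i)) = ((List.ofFn σ).map fun i => y i) := by
        rw [List.map_ofFn]; rfl
      rw [h1, h2]
      exact hl _
    · intro y
      rw [hψ y (lft y) (hlft y), hker]
      constructor
      · intro hx
        exact ⟨_, hx, hlft y⟩
      · rintro ⟨x, hx, hxy⟩
        have h1 : x⁻¹ * (lft y : G) ∈ H := by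
          apply hH
          rw [MonoidHom.mem_ker, map_mul, map_inv, hxy, hlft, inv_mul_cancel]
        have h2 : (lft y : G) = x * (x⁻¹ * (lft y : G)) := by group
        rw [h2]
        exact mul_mem hx h1

/-- The series theorem. -/
theorem series_of (hF : SFinE) : SSeries := by
  intro d r m k
  induction k with
  | zero =>
    refine ⟨1, ?_⟩
    intro G _ _ _ _ _ ⟨N, h0, h1, _⟩
    rw [h0] at h1
    rw [← Subgroup.card_top, ← h1, Subgroup.card_bot]
  | succ k ih =>
    obtain ⟨β, hβ⟩ := ih
    have hF' := fun j => hF (β * d) j (3 ^ β.factorial) (by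
      calc 2 ≤ 3 ^ 1 := by norm_num
        _ ≤ 3 ^ β.factorial := Nat.pow_le_pow_right (by norm_num) (Nat.factorial_pos _))
    choose C hC using hF'
    refine ⟨max (bound d (max r β) 2) (β * (Finset.range (m + 1)).sup C), ?_⟩
    intro G _ _ hp hgen h3 ⟨N, hN0, hNk, hN⟩
    classical
    obtain ⟨s, hsd, hs⟩ := hgen
    have hN1 : (N 1).Normal := by
      rcases Nat.eq_zero_or_pos k with hk | hk
      · subst hk
        rw [show N 1 = ⊤ from hNk]
        infer_instance
      · exact (hN 1 (by omega)).1
    let π := QuotientGroup.mk' (N 1)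
    have hπ : Function.Surjective π := QuotientGroup.mk'_surjective (N 1)
    have hle1 : ∀ i, i + 1 ≤ k + 1 → N 1 ≤ N (i + 1) := by
      intro i
      induction i with
      | zero => intro _; exact le_refl _
      | succ i ihi =>
        intro hi
        exact (ihi (by omega)).trans (hN (i + 1) (by omega)).2.1
    have hQ : Nat.card (G ⧸ N 1) ≤ β := by
      refine hβ (G ⧸ N 1) (hp.to_quotient _) ?_ ?_ ?_
      · refine ⟨s.image π, Finset.card_image_le.trans hsd, ?_⟩
        rw [Finset.coe_image, ← MonoidHom.map_closure, hs, ← MonoidHom.range_eq_map,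
          MonoidHom.range_eq_top.mpr hπ]
      · intro x
        obtain ⟨y, rfl⟩ := hπ x
        rw [← map_pow]
        exact MonoidHom.map_isConj π (h3 y)
      · refine ⟨fun i => (N (i + 1)).map π, ?_, ?_, ?_⟩
        · show (N 1).map π = ⊥
          rw [Subgroup.map_eq_bot_iff, QuotientGroup.ker_mk']
        · show (N (k + 1)).map π = ⊤
          rw [hNk, ← MonoidHom.range_eq_map, MonoidHom.range_eq_top.mpr hπ]
        · intro i hi
          obtain ⟨h1, h2, h4⟩ := hN (i + 1) (by omega)
          refine ⟨h1.map π hπ, Subgroup.map_mono h2, ?_⟩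
          exact re_quot π hπ r m (N (i + 1)) (N (i + 1 + 1)) h2
            (by rw [QuotientGroup.ker_mk']; exact hle1 i (by omega)) h4
    have hidx : Nat.card (N 1) * Nat.card (G ⧸ N 1) = Nat.card G := by
      rw [← Subgroup.card_mul_index (N 1), Subgroup.index]
    have hlow : (⁅N 1, N 1⁆ ≤ ⊥ ∨ ∀ L : Subgroup G, ⊥ ≤ L → L ≤ N 1 →
        ∃ s : Finset G, s.card ≤ r ∧ L = ⊥ ⊔ closure (s : Set G)) →
        Nat.card G ≤ bound d (max r β) 2 := by
      intro hlow
      refine series_bound d (max r β) 2 G hp ⟨s, hsd, hs⟩ h3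
        ⟨fun i => if i = 0 then ⊥ else if i = 1 then N 1 else ⊤, rfl, rfl, ?_⟩
      intro i hi
      have hi' : i = 0 ∨ i = 1 := by omega
      rcases hi' with rfl | rfl
      · refine ⟨?_, bot_le, ?_⟩
        · show (⊥ : Subgroup G).Normal
          infer_instance
        · show Good G (max r β) ⊥ (N 1)
          rcases hlow with h | h
          · exact Or.inl h
          · right
            intro L hL1 hL2
            obtain ⟨t, ht, hLt⟩ := h L hL1 hL2
            exact ⟨t, ht.trans (le_max_left _ _), hLt⟩
      · refine ⟨hN1, le_top, ?_⟩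
        show Good G (max r β) (N 1) ⊤
        right
        intro L hL1 _
        exact re_good_top (N 1) (max r β) (hQ.trans (le_max_right _ _)) L hL1
    have hbot := (hN 0 (by omega)).2.2
    rw [hN0] at hbot
    rcases hbot with hab | hrk | ⟨j, hj, B, hB, φ, hφ, hker⟩
    · exact (hlow (Or.inl hab)).trans (le_max_left _ _)
    · exact (hlow (Or.inr hrk)).trans (le_max_left _ _)
    · refine le_trans ?_ (le_max_right _ _)
      have hrank : Group.rank (N 1) ≤ β * d := by
        refine (Subgroup.rank_le_index_mul_rank (N 1)).trans (Nat.mul_le_mul hQ ?_)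
        exact (Group.rank_le hs).trans hsd
      obtain ⟨S, hS1, hS2⟩ := Group.rank_spec (N 1)
      obtain ⟨b, hb⟩ := fin_family S (β * d) (hS1.le.trans hrank)
      have hcard : Nat.card (N 1) ≤ (Finset.range (m + 1)).sup C := by
        refine le_trans ?_ (Finset.le_sup (f := C) (Finset.mem_range.2 (Nat.lt_succ_of_le hj)))
        refine hC j (N 1) B φ b (hp.to_subgroup _) ?_ (hb.trans hS2) ?_ hφ
        · intro x
          obtain ⟨t, ht⟩ := isConj_iff.1 (h3 (x : G))
          have htN : t ^ β.factorial ∈ N 1 := by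
            have h1 : t ^ (N 1).index ∈ N 1 := Subgroup.pow_index_mem (N 1) t
            have h2 : (N 1).index ∣ β.factorial :=
              Nat.dvd_factorial (Nat.pos_of_ne_zero (Subgroup.index_ne_zero_of_finite)) hQ
            obtain ⟨c, hc⟩ := h2
            rw [hc, pow_mul]
            exact pow_mem h1 c
          refine isConj_iff.2 ⟨⟨t ^ β.factorial, htN⟩, Subtype.ext ?_⟩
          show t ^ β.factorial * (x : G) * (t ^ β.factorial)⁻¹ = (x : G) ^ (3 ^ β.factorial)
          exact re_conj_it ht _
        · rw [injective_iff_map_eq_one']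
          intro x
          rw [hker]
          constructor
          · intro hx
            exact Subtype.ext (Subgroup.mem_bot.1 hx)
          · rintro rfl
            exact one_mem _
      rw [← hidx, mul_comm]
      exact Nat.mul_le_mul hQ hcard

end Pool.Agent.H64.RE
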