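import Pool.Agent.H64.RE.Cent
import Pool.Agent.H64.RE.Std
import Pool.Agent.H30.PI.SpecE

set_option autoImplicit false

/-! # 2-groups with `x ~ x ^ e` and a subnormal series whose factors are abelian, of bounded rank or in
rings with a polynomial identity (helper64) -/

namespace Pool.Agent.H64.RE

open Subgroup
open Pool.Agent.H50.RatTwo (fin_family exists_selfCentralizing)
open Pool.Agent.H30.PI (Iden SFinE)

/-- The bound for groups with a self-centralizing abelian normal subgroup generated by `r` elements. -/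
theorem card_le_gen {G : Type} [Group G] [Finite G]
    {e : ℕ} (he : 2 ≤ e) (h3 : ∀ x : G, IsConj x (x ^ e)) (r : ℕ) (A : Subgroup G) (hAn : A.Normal)
    (hA : ∀ a ∈ A, ∀ b ∈ A, a * b = b * a) (hAc : ∀ x : G, (∀ a ∈ A, x * a = a * x) → x ∈ A)
    (b : Fin r → G) (hb : closure (Set.range b) = A) :
    Nat.card G ≤ ((vand e r).natAbs ^ r) * ((vand e r).natAbs ^ r) ^ ((vand e r).natAbs ^ r) := by
  classical
  have hcA := card_abelian_le he h3 A hAn hA r b hb
  let φ : G →* MulAut A := MulAut.conjNormal
  have hker : Nat.card φ.ker ≤ Nat.card A := by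
    refine Nat.card_mono (Set.toFinite _) ?_
    intro x hx
    refine hAc x fun a ha => ?_
    have h1 : φ x = 1 := hx
    have h2 := congrArg Subtype.val (DFunLike.congr_fun h1 ⟨a, ha⟩)
    rw [MulAut.conjNormal_apply, MulAut.one_apply, mul_inv_eq_iff_eq_mul] at h2
    exact h2
  have hrange : Nat.card φ.range ≤ (Nat.card A) ^ (Nat.card A) := by
    refine (Nat.card_le_card_of_injective (fun x : φ.range => ((x : MulAut A) : A → A)) ?_).trans
      (le_of_eq Nat.card_fun)
    intro x y hxy
    exact Subtype.ext (DFunLike.coe_injective hxy)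
  have h1 : Nat.card G = Nat.card φ.ker * Nat.card φ.range := by
    rw [← Subgroup.index_ker, Subgroup.card_mul_index]
  rw [h1]
  have hA1 : 0 < Nat.card A := Nat.card_pos
  refine Nat.mul_le_mul (hker.trans hcA) (hrange.trans ?_)
  exact (Nat.pow_le_pow_left hcA _).trans
    (Nat.pow_le_pow_right (hA1.trans_le hcA) hcA)

/-- The condition on a factor: abelian, or all subgroups are generated by `r` elements, or embedded in
a ring with an identity of degree at most `m`. -/
def FacQ (r m : ℕ) (Q : Type) [Group Q] : Prop :=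
  (∀ x y : Q, x * y = y * x) ∨
  (∀ L : Subgroup Q, ∃ s : Finset Q, s.card ≤ r ∧ L = closure (s : Set Q)) ∨
  ∃ j ≤ m, ∃ (B : Type) (_ : Ring B) (φ : Q →* B), Iden j φ ∧ Function.Injective φ

/-- The bound for a single factor. -/
theorem fac_bound (hF : SFinE) (d e r m : ℕ) (he : 2 ≤ e) : ∃ β : ℕ, ∀ (Q : Type) [Group Q]
    [Finite Q], IsPGroup 2 Q → (∃ s : Fin d → Q, closure (Set.range s) = ⊤) →
    (∀ x : Q, IsConj x (x ^ e)) → FacQ r m Q → Nat.card Q ≤ β := by
  classical
  choose C hC using fun j => hF d j e he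
  refine ⟨max (((vand e r).natAbs ^ r) * ((vand e r).natAbs ^ r) ^ ((vand e r).natAbs ^ r))
    ((Finset.range (max m 2 + 1)).sup C), ?_⟩
  intro Q _ _ hp ⟨s, hs⟩ h3 hfac
  have hpi : (∃ j ≤ max m 2, ∃ (B : Type) (_ : Ring B) (φ : Q →* B), Iden j φ ∧
      Function.Injective φ) → Nat.card Q ≤ (Finset.range (max m 2 + 1)).sup C := by
    rintro ⟨j, hj, B, hB, φ, hφ, hinj⟩
    refine le_trans ?_ (Finset.le_sup (f := C) (Finset.mem_range.2 (Nat.lt_succ_of_le hj)))
    exact hC j Q B φ s hp h3 hs hinj hφ
  rcases hfac with hab | hrk | ⟨j, hj, h⟩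
  · refine le_trans ?_ (le_max_right _ _)
    apply hpi
    let _ : CommGroup Q := { (inferInstance : Group Q) with mul_comm := hab }
    refine ⟨2, le_max_right _ _, MonoidAlgebra ℤ Q, inferInstance, MonoidAlgebra.of ℤ Q, ?_,
      MonoidAlgebra.of_injective⟩
    refine ⟨fun σ => ((Equiv.Perm.sign σ : ℤˣ) : ℤ), by simp, fun y => ?_⟩
    have h1 : ∀ σ : Equiv.Perm (Fin 2), (List.ofFn fun i => y (σ i)).prod = y 0 * y 1 := by
      intro σ
      rw [List.prod_ofFn, Equiv.prod_comp σ y, Fin.prod_univ_two]
    simp only [h1]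
    rw [← Finset.sum_smul]
    have h2 : ∑ σ : Equiv.Perm (Fin 2), ((Equiv.Perm.sign σ : ℤˣ) : ℤ) = 0 := by decide
    rw [h2, zero_smul]
  · refine le_trans ?_ (le_max_left _ _)
    have : Fact (Nat.Prime 2) := ⟨Nat.prime_two⟩
    obtain ⟨A, hAn, hA, hAc⟩ := exists_selfCentralizing 2 hp
    obtain ⟨t, ht, hAt⟩ := hrk A
    obtain ⟨b, hb⟩ := fin_family t r ht
    exact card_le_gen he h3 r A hAn hA hAc b (hb.trans hAt.symm)
  · exact le_trans (hpi ⟨j, hj.trans (le_max_left _ _), h⟩) (le_max_right _ _)

/-- Conjugation by powers. -/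
theorem sub_conj_it {G : Type} [Group G] {e : ℕ} {x t : G} (h : t * x * t⁻¹ = x ^ e) (j : ℕ) :
    t ^ j * x * (t ^ j)⁻¹ = x ^ (e ^ j) := by
  induction j with
  | zero => simp
  | succ n ih =>
    have : t ^ (n + 1) * x * (t ^ (n + 1))⁻¹ = t * (t ^ n * x * (t ^ n)⁻¹) * t⁻¹ := by
      rw [pow_succ']; group
    rw [this, ih, ← conj_pow, h, ← pow_mul, pow_succ']

/-- The condition on the factor `K / H`, `H` normal in `K`. -/
def FSub (G : Type) [Group G] (r m : ℕ) (H K : Subgroup G) : Prop :=
  (H.subgroupOf K).Normal ∧ (⁅K, K⁆ ≤ H ∨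
  (∀ L : Subgroup G, H ≤ L → L ≤ K → ∃ s : Finset G, s.card ≤ r ∧ L = H ⊔ closure (s : Set G)) ∨
  ∃ j ≤ m, ∃ (B : Type) (_ : Ring B) (φ : K →* B), Iden j φ ∧ ∀ x : K, φ x = 1 ↔ (x : G) ∈ H)

/-- The condition passes to a subgroup containing `K`. -/
theorem fsub_sub {G : Type} [Group G] (r m : ℕ) (H K N : Subgroup G) (hHK : H ≤ K) (hKN : K ≤ N)
    (h : FSub G r m H K) : FSub N r m (H.subgroupOf N) (K.subgroupOf N) := by
  classical
  obtain ⟨hn, h⟩ := h
  have hmap : ∀ L : Subgroup G, L ≤ N → (L.subgroupOf N).map N.subtype = L := by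
    intro L hL
    rw [Subgroup.subgroupOf_map_subtype]
    exact inf_eq_left.2 hL
  refine ⟨?_, ?_⟩
  · constructor
    rintro ⟨⟨x, hxN⟩, hxK⟩ hx ⟨⟨g, hgN⟩, hgK⟩
    exact hn.conj_mem ⟨x, hxK⟩ hx ⟨g, hgK⟩
  rcases h with h | h | ⟨j, hj, B, hB, φ, hφ, hker⟩
  · left
    rw [← Subgroup.map_subtype_le_map_subtype, Subgroup.map_commutator, hmap K hKN,
      hmap H (hHK.trans hKN)]
    exact h
  · right; left
    intro L hL1 hL2
    obtain ⟨t, ht, hLt⟩ := h (L.map N.subtype)
      (by rw [← hmap H (hHK.trans hKN)]; exact Subgroup.map_mono hL1)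
      (by rw [← hmap K hKN]; exact Subgroup.map_mono hL2)
    have htN : ∀ x ∈ t, x ∈ N := by
      intro x hx
      have h1 : x ∈ L.map N.subtype := by
        rw [hLt]
        exact mem_sup_right (subset_closure hx)
      exact (Subgroup.map_subtype_le L) h1
    refine ⟨t.subtype (fun x => x ∈ N), (Finset.card_subtype _ _).le.trans
      ((Finset.card_filter_le _ _).trans ht), ?_⟩
    apply Subgroup.map_injective N.subtype_injective
    rw [Subgroup.map_sup, hmap H (hHK.trans hKN), MonoidHom.map_closure, hLt]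
    congr 2
    ext x
    simp only [Set.mem_image, Finset.mem_coe, Finset.mem_subtype]
    constructor
    · intro hx
      exact ⟨⟨x, htN x hx⟩, hx, rfl⟩
    · rintro ⟨y, hy, rfl⟩
      exact hy
  · right; right
    let ι : K.subgroupOf N →* K := (Subgroup.subgroupOfEquivOfLe hKN).toMonoidHom
    have hι : ∀ x : K.subgroupOf N, ((ι x : K) : G) = ((x : N) : G) := fun x => rfl
    refine ⟨j, hj, B, hB, φ.comp ι, ?_, ?_⟩
    · obtain ⟨a, ha1, ha2⟩ := hφ
      refine ⟨a, ha1, fun y => ?_⟩
      rw [← ha2 fun i => ι (y i)]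
      refine Finset.sum_congr rfl fun σ _ => ?_
      rw [MonoidHom.comp_apply, map_list_prod ι, List.map_ofFn]
      rfl
    · intro x
      rw [MonoidHom.comp_apply, hker, hι]
      rfl

/-- The theorem. -/
theorem sub_series (hF : SFinE) (r m k : ℕ) : ∀ d e : ℕ, 2 ≤ e → ∃ B : ℕ, ∀ (G : Type) [Group G]
    [Finite G], IsPGroup 2 G → (∃ s : Fin d → G, closure (Set.range s) = ⊤) →
    (∀ x : G, IsConj x (x ^ e)) → ∀ N : ℕ → Subgroup G, N 0 = ⊥ → N k = ⊤ →
    (∀ i < k, N i ≤ N (i + 1) ∧ FSub G r m (N i) (N (i + 1))) → Nat.card G ≤ B := by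
  induction k with
  | zero =>
    intro d e _
    refine ⟨1, ?_⟩
    intro G _ _ _ _ _ N h0 h1 _
    rw [h0] at h1
    rw [← Subgroup.card_top, ← h1, Subgroup.card_bot]
  | succ k ih =>
    intro d e he
    obtain ⟨β, hβ⟩ := fac_bound hF d e r m he
    obtain ⟨C, hC⟩ := ih (β * d) (e ^ β.factorial) (by
      calc 2 ≤ e ^ 1 := by rw [pow_one]; exact he
        _ ≤ e ^ β.factorial := Nat.pow_le_pow_right (by omega) (Nat.factorial_pos _))
    refine ⟨C * β, ?_⟩
    intro G _ _ hp hgen h3 N hN0 hNk hN
    classical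
    obtain ⟨s, hs⟩ := hgen
    obtain ⟨-, hnorm, hfac⟩ := hN k (Nat.lt_succ_self k)
    rw [hNk] at hnorm hfac
    have hNn : (N k).Normal := by
      constructor
      intro x hx g
      exact hnorm.conj_mem ⟨x, mem_top x⟩ hx ⟨g, mem_top g⟩
    have hle : ∀ i j, i ≤ j → j ≤ k → N i ≤ N j := by
      intro i j hij
      induction j, hij using Nat.le_induction with
      | base => intro _; exact le_rfl
      | succ j hij ihj =>
        intro hj
        exact (ihj (by omega)).trans (hN j (by omega)).1
    let π := QuotientGroup.mk' (N k)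
    have hπ : Function.Surjective π := QuotientGroup.mk'_surjective (N k)
    have hQ : Nat.card (G ⧸ N k) ≤ β := by
      refine hβ (G ⧸ N k) (hp.to_quotient _) ?_ ?_ ?_
      · refine ⟨fun i => π (s i), ?_⟩
        have h1 : Set.range (fun i => π (s i)) = π '' Set.range s := by
          rw [← Set.range_comp]; rfl
        rw [h1, ← MonoidHom.map_closure, hs, ← MonoidHom.range_eq_map,
          MonoidHom.range_eq_top.mpr hπ]
      · intro x
        obtain ⟨y, rfl⟩ := hπ x
        rw [← map_pow]
        exact MonoidHom.map_isConj π (h3 y)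
      · rcases hfac with h | h | ⟨j, hj, B, hB, φ, hφ, hker⟩
        · left
          intro x y
          obtain ⟨x, rfl⟩ := hπ x
          obtain ⟨y, rfl⟩ := hπ y
          rw [← map_mul, ← map_mul]
          apply (QuotientGroup.eq).2
          have h1 := h (Subgroup.commutator_mem_commutator (mem_top y⁻¹) (mem_top x⁻¹))
          rw [commutatorElement_def] at h1
          have h2 : (x * y)⁻¹ * (y * x) = y⁻¹ * x⁻¹ * y⁻¹⁻¹ * x⁻¹⁻¹ := by group
          rw [h2]
          exact h1
        · right; left
          intro L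
          obtain ⟨t, ht, hLt⟩ := h (L.comap π) (by
            intro x hx
            rw [Subgroup.mem_comap]
            have h1 : π x = 1 := (QuotientGroup.eq_one_iff x).2 hx
            rw [h1]
            exact one_mem _) le_top
          refine ⟨t.image π, Finset.card_image_le.trans ht, ?_⟩
          have h1 : (N k).map π = ⊥ := by
            rw [Subgroup.map_eq_bot_iff, QuotientGroup.ker_mk']
          rw [Finset.coe_image, ← MonoidHom.map_closure,
            ← Subgroup.map_comap_eq_self_of_surjective hπ L, hLt, Subgroup.map_sup, h1,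
            bot_sup_eq]
        · right; right
          let φ' : G →* B := φ.comp (Subgroup.topEquiv.symm : G ≃* (⊤ : Subgroup G)).toMonoidHom
          have hφ'k : ∀ x : G, φ' x = 1 ↔ x ∈ N k := fun x => hker ⟨x, mem_top x⟩
          let ψ0 : G ⧸ N k →* Bˣ := QuotientGroup.lift (N k) φ'.toHomUnits (by
            intro x hx
            apply Units.ext
            exact (hφ'k x).2 hx)
          let ψ : G ⧸ N k →* B := (Units.coeHom B).comp ψ0
          have hψ : ∀ x : G, ψ (π x) = φ' x := fun x => rfl
          refine ⟨j, hj, B, hB, ψ, ?_, ?_⟩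
          · obtain ⟨a, ha1, ha2⟩ := hφ
            refine ⟨a, ha1, fun y => ?_⟩
            choose z hz using fun i => hπ (y i)
            have h1 := ha2 fun i => (⟨z i, mem_top _⟩ : (⊤ : Subgroup G))
            rw [← h1]
            refine Finset.sum_congr rfl fun σ _ => ?_
            congr 1
            have h2 : (List.ofFn fun i => y (σ i)).prod =
                π ((List.ofFn fun i => z (σ i)).prod) := by
              rw [map_list_prod, List.map_ofFn]
              congr 2
              funext i
              exact (hz (σ i)).symm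
            rw [h2, hψ]
            show φ _ = φ _
            congr 1
            apply Subtype.ext
            show (List.ofFn fun i => z (σ i)).prod = _
            have h3 := map_list_prod (⊤ : Subgroup G).subtype
              (List.ofFn fun i => (⟨z (σ i), mem_top _⟩ : (⊤ : Subgroup G)))
            rw [List.map_ofFn] at h3
            exact h3.symm
          · rw [injective_iff_map_eq_one']
            intro x
            obtain ⟨x, rfl⟩ := hπ x
            rw [hψ, hφ'k]
            exact (QuotientGroup.eq_one_iff x).symm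
    have hidx : Nat.card (N k) * Nat.card (G ⧸ N k) = Nat.card G := by
      rw [← Subgroup.card_mul_index (N k), Subgroup.index]
    have hrank : Group.rank (N k) ≤ β * d := by
      refine (Subgroup.rank_le_index_mul_rank (N k)).trans (Nat.mul_le_mul hQ ?_)
      have h1 : closure ((Finset.univ.image s : Finset G) : Set G) = ⊤ := by
        rw [Finset.coe_image, Finset.coe_univ, Set.image_univ, hs]
      exact (Group.rank_le h1).trans (Finset.card_image_le.trans (by simp))
    obtain ⟨S, hS1, hS2⟩ := Group.rank_spec (N k)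
    obtain ⟨b, hb⟩ := fin_family S (β * d) (hS1.le.trans hrank)
    have hcard : Nat.card (N k) ≤ C := by
      refine hC (N k) (hp.to_subgroup _) ⟨b, hb.trans hS2⟩ ?_
        (fun i => (N i).subgroupOf (N k)) ?_ ?_ ?_
      · intro x
        obtain ⟨t, ht⟩ := isConj_iff.1 (h3 (x : G))
        have htN : t ^ β.factorial ∈ N k := by
          have h1 : t ^ (N k).index ∈ N k := Subgroup.pow_index_mem (N k) t
          have h2 : (N k).index ∣ β.factorial :=
            Nat.dvd_factorial (Nat.pos_of_ne_zero (Subgroup.index_ne_zero_of_finite)) hQ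
          obtain ⟨c, hc⟩ := h2
          rw [hc, pow_mul]
          exact pow_mem h1 c
        refine isConj_iff.2 ⟨⟨t ^ β.factorial, htN⟩, Subtype.ext ?_⟩
        show t ^ β.factorial * (x : G) * (t ^ β.factorial)⁻¹ = (x : G) ^ (e ^ β.factorial)
        exact sub_conj_it ht _
      · show (N 0).subgroupOf (N k) = ⊥
        rw [hN0, Subgroup.bot_subgroupOf]
      · show (N k).subgroupOf (N k) = ⊤
        rw [Subgroup.subgroupOf_self]
      · intro i hi
        obtain ⟨h1, h2⟩ := hN i (by omega)
        exact ⟨Subgroup.comap_mono h1, fsub_sub r m _ _ _ h1 (hle _ _ (by omega) le_rfl) h2⟩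
    rw [← hidx]
    exact Nat.mul_le_mul hcard hQ

end Pool.Agent.H64.RE
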